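import Pool.Agent.Zk17.JQ.F
import Pool.Agent.Zk6.JD11

set_option autoImplicit false

/-!
# Jensen polynomials, square root bound, step 7: the Riemann xi function
-/

namespace Pool.Agent.Zk17.JQ

open Filter Topology
open Pool.Agent.TH99.RJ (nonreal nonreal_eq Ap Jp Gr BB BB_half Hyp iter_add diff_iter)
open Pool.Agent.H24R2.JP (Par App FF gam jensen)
open Pool.Agent.Zk6.JD (grFF hypFF jensen_eq nonreal_le log_le_eps S_SUM S_JD)

theorem jcore (H : ℝ) (hH0 : 0 < H)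
    (hH : ∀ (n : ℕ) (S : Finset ℂ), (∀ x ∈ S, iteratedDeriv n FF x = 0) →
      ∑ x ∈ S, (analyticOrderNatAt (iteratedDeriv n FF) x : ℝ) * (1 / ‖x‖) ≤ H)
    (n d : ℕ) (hd : 1 ≤ d) (D W τ Λ : ℝ) (hD : 2 * (d : ℝ) ≤ D)
    (hΛ : 2 + 4 * Real.log (1 + 2 * (d * H) * d ^ 2) ≤ Λ)
    (hW1 : ∀ S : Finset ℂ, (∀ x ∈ S, iteratedDeriv n FF x = 0 ∧ x.im ≠ 0 ∧ ‖x‖ ≤ D) →
      ∑ x ∈ S, (analyticOrderNatAt (iteratedDeriv n FF) x : ℝ) * (1 / √‖x‖) ≤ W)
    (hT1 : ∀ S : Finset ℂ, (∀ x ∈ S, iteratedDeriv n FF x = 0 ∧ x.im ≠ 0 ∧ D < ‖x‖) →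
      ∑ x ∈ S, (analyticOrderNatAt (iteratedDeriv n FF) x : ℝ) * (1 / ‖x‖) ≤ τ)
    (hτΛ : 2 * d * τ * Λ ≤ √d / 100) :
    (nonreal (jensen d n) : ℝ) ≤ √d * W * (400 * Λ * (1 + W) + 3) +
      2 * d * τ * (200 * Λ * (1 + W)) ^ 2 := by
  obtain ⟨hdf, -, hc, hi⟩ := Pool.Agent.H24R2.JP.b1
  have hpos := Pool.Agent.H24R2.JP.gamT.1
  have hd1 : (1 : ℝ) ≤ d := by exact_mod_cast hd
  have hd0 : (0 : ℝ) < d := by linarith
  have hW0 : 0 ≤ W := by simpa using hW1 ∅ (by simp)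
  have hτ0 : 0 ≤ τ := by simpa using hT1 ∅ (by simp)
  have hΛ2 : 2 ≤ Λ := by
    have : 0 ≤ Real.log (1 + 2 * (d * H) * d ^ 2) := by
      apply Real.log_nonneg
      have : 0 ≤ 2 * (d * H) * (d : ℝ) ^ 2 := by positivity
      linarith
    linarith
  obtain ⟨A, hA⟩ : ∃ A : ℝ, A = 200 * Λ * (1 + W) := ⟨_, rfl⟩
  have hA0 : 0 < A := by rw [hA]; positivity
  have hA400 : 400 ≤ A := by rw [hA]; nlinarith
  obtain ⟨r, hr⟩ : ∃ r : ℝ, r = (1 / A) ^ 2 := ⟨_, rfl⟩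
  have hr0 : 0 < r := by rw [hr]; positivity
  have hsr : √r = 1 / A := by rw [hr]; exact Real.sqrt_sq (by positivity)
  have hsd : 0 < √(d : ℝ) := Real.sqrt_pos.2 hd0
  have h1A : 1 / A ≤ 1 / 400 := one_div_le_one_div_of_le (by norm_num) hA400
  have h1A0 : 0 < 1 / A := by positivity
  have hr40 : r ≤ 1 / 40 := by
    rw [hr]
    nlinarith
  have e1 : √(d * r) = √d * (1 / A) := by rw [Real.sqrt_mul hd0.le, hsr]
  have e2 : √(d / r) = √d * A := by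
    rw [Real.sqrt_div hd0.le, hsr]
    field_simp
  have e3 : 2 * √(2 * d) ≤ 3 * √d := by
    rw [Real.sqrt_mul (by norm_num)]
    have : √(2 : ℝ) ≤ 3 / 2 := by
      rw [Real.sqrt_le_left (by norm_num)]
      norm_num
    nlinarith
  have e4 : (d : ℝ) / r = d * A ^ 2 := by
    rw [hr]
    field_simp
  have hΛ0 : 0 ≤ Λ := by linarith
  have f1 : W * Λ * (1 / A) ≤ 1 / 200 := by
    rw [mul_one_div, div_le_iff₀ hA0, hA]
    nlinarith
  have hcond : (2 * (√(d * r) * W + d * τ) + 2 * (√(2 * d) * W) * r) * Λ ≤ √d / 40 := by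
    rw [e1]
    have g1 : 2 * (√d * (1 / A) * W) * Λ ≤ √d / 100 := by
      have : 2 * (√d * (1 / A) * W) * Λ = 2 * √d * (W * Λ * (1 / A)) := by ring
      rw [this]
      nlinarith
    have g2 : 2 * (√(2 * d) * W) * r * Λ ≤ √d / 1000 := by
      have g3 : 2 * (√(2 * d) * W) * r * Λ = 2 * √(2 * d) * ((W * Λ * (1 / A)) * (1 / A)) := by
        rw [hr]; ring
      have g4 : (W * Λ * (1 / A)) * (1 / A) ≤ 1 / 200 * (1 / 400) :=
        mul_le_mul f1 h1A h1A0.le (by norm_num)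
      rw [g3]
      calc 2 * √(2 * d) * ((W * Λ * (1 / A)) * (1 / A)) ≤ 3 * √d * (1 / 200 * (1 / 400)) :=
            mul_le_mul e3 g4 (by positivity) (by positivity)
        _ ≤ √d / 1000 := by nlinarith
    have g5 : (2 * (√d * (1 / A) * W + d * τ) + 2 * (√(2 * d) * W) * r) * Λ =
        2 * (√d * (1 / A) * W) * Λ + 2 * d * τ * Λ + 2 * (√(2 * d) * W) * r * Λ := by ring
    rw [g5]
    linarith
  rw [jensen_eq]
  have hmain := entire (iteratedDeriv n FF) (fun j => gam (n + j)) (diff_iter hdf n)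
    (Pool.Agent.H24R2.JP.B1h.iter_conj FF hc n) (grFF.iter hdf n).grow34 (by
      intro j
      rw [iter_add, hi]) (hpos _).ne'
    (fun w hw => Pool.Agent.H24R2.JP.parT FF Pool.Agent.H24R2.JP.goodT n w hw) d hd D H Λ r W τ hD
    hH0.le hΛ hr0 hr40 hcond (hH n) hW1 hT1
  refine hmain.trans ?_
  rw [e2, e4]
  have g6 : 2 * (√(2 * d) * W) ≤ 3 * √d * W := by
    have := mul_le_mul_of_nonneg_right e3 hW0
    linarith
  calc 2 * (√d * A * W + d * A ^ 2 * τ) + 2 * (√(2 * d) * W)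
      ≤ 2 * (√d * A * W + d * A ^ 2 * τ) + 3 * √d * W := by linarith
    _ = _ := by rw [hA]; ring

theorem log_pow_bound (η : ℝ) (hη : 0 < η) (H : ℝ) (hH : 0 < H) : ∃ C : ℝ, 0 < C ∧ ∀ d : ℕ, 1 ≤ d →
    2 + 4 * Real.log (1 + 2 * (d * H) * d ^ 2) ≤ C * (d : ℝ) ^ η := by
  have hl : 0 < Real.log (1 + 2 * H) := Real.log_pos (by linarith)
  refine ⟨2 + 4 * Real.log (1 + 2 * H) + 12 / η, by positivity, fun d hd => ?_⟩
  have hd1 : (1 : ℝ) ≤ d := by exact_mod_cast hd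
  have hd0 : (0 : ℝ) < d := by linarith
  have h1 : 1 + 2 * (d * H) * (d : ℝ) ^ 2 ≤ (1 + 2 * H) * (d : ℝ) ^ 3 := by
    have : 1 ≤ (d : ℝ) ^ 3 := one_le_pow₀ hd1
    nlinarith
  have h2 : Real.log (1 + 2 * (d * H) * (d : ℝ) ^ 2) ≤ Real.log (1 + 2 * H) + 3 * Real.log d := by
    refine (Real.log_le_log (by positivity) h1).trans ?_
    rw [Real.log_mul (by positivity) (by positivity), Real.log_pow]
    push_cast
    exact le_refl _
  have h3 := log_le_eps hη hd1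
  have h4 : 1 ≤ (d : ℝ) ^ η := Real.one_le_rpow hd1 hη.le
  have h5 : 12 / η * (d : ℝ) ^ η = 12 * ((d : ℝ) ^ η / η) := by ring
  rw [add_mul, h5]
  nlinarith

theorem log_sq_bound (η : ℝ) (hη : 0 < η) : ∃ C : ℝ, 0 < C ∧ ∀ d : ℕ, 1 ≤ d →
    (Real.log ((2 * (d : ℝ)) ^ 8 + 2)) ^ 2 ≤ C * (d : ℝ) ^ η := by
  refine ⟨(10 + 16 / η) ^ 2, by positivity, fun d hd => ?_⟩
  have hd1 : (1 : ℝ) ≤ d := by exact_mod_cast hd
  have hd0 : (0 : ℝ) < d := by linarith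
  have h1 : (2 * (d : ℝ)) ^ 8 + 2 ≤ 2 ^ 10 * (d : ℝ) ^ 8 := by
    have : 1 ≤ (d : ℝ) ^ 8 := one_le_pow₀ hd1
    rw [mul_pow]
    nlinarith
  have h2 : Real.log ((2 * (d : ℝ)) ^ 8 + 2) ≤ 10 * Real.log 2 + 8 * Real.log d := by
    refine (Real.log_le_log (by positivity) h1).trans ?_
    rw [Real.log_mul (by positivity) (by positivity), Real.log_pow, Real.log_pow]
    push_cast
    exact le_refl _
  have h3 : Real.log 2 ≤ 1 := by
    have := Real.log_le_sub_one_of_pos (by norm_num : (0 : ℝ) < 2)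
    linarith
  have h4 := log_le_eps (show 0 < η / 2 by positivity) hd1
  have h5 : 1 ≤ (d : ℝ) ^ (η / 2) := Real.one_le_rpow hd1 (by positivity)
  have h6 : Real.log ((2 * (d : ℝ)) ^ 8 + 2) ≤ (10 + 16 / η) * (d : ℝ) ^ (η / 2) := by
    have h7 : (10 + 16 / η) * (d : ℝ) ^ (η / 2) = 10 * (d : ℝ) ^ (η / 2) +
        8 * ((d : ℝ) ^ (η / 2) / (η / 2)) := by
      field_simp
      ring
    rw [h7]
    linarith
  have h8 : 0 ≤ Real.log ((2 * (d : ℝ)) ^ 8 + 2) := Real.log_nonneg (by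
    have : 0 ≤ (2 * (d : ℝ)) ^ 8 := by positivity
    linarith)
  calc (Real.log ((2 * (d : ℝ)) ^ 8 + 2)) ^ 2 ≤ ((10 + 16 / η) * (d : ℝ) ^ (η / 2)) ^ 2 :=
        pow_le_pow_left₀ h8 h6 2
    _ = (10 + 16 / η) ^ 2 * (d : ℝ) ^ η := by
        rw [mul_pow, ← Real.rpow_natCast ((d : ℝ) ^ (η / 2)), ← Real.rpow_mul hd0.le]
        congr 2
        push_cast
        ring

/-- the bound at one pair `(n, d)`, with `x = d ^ η` -/
theorem jpair (H CT CΛ CW x : ℝ) (hH0 : 0 < H) (hCT : 0 < CT) (hCΛ : 0 < CΛ) (hCW : 0 < CW)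
    (hH : ∀ (n : ℕ) (S : Finset ℂ), (∀ x ∈ S, iteratedDeriv n FF x = 0) →
      ∑ x ∈ S, (analyticOrderNatAt (iteratedDeriv n FF) x : ℝ) * (1 / ‖x‖) ≤ H)
    (hT : ∀ (n : ℕ) (D : ℝ), 0 < D → ∀ (S : Finset ℂ),
      (∀ x ∈ S, iteratedDeriv n FF x = 0 ∧ x.im ≠ 0 ∧ D < ‖x‖) →
      ∑ x ∈ S, (analyticOrderNatAt (iteratedDeriv n FF) x : ℝ) * (1 / ‖x‖) ≤
        CT * D ^ (-(1 / 4) : ℝ))
    (n d : ℕ) (hd : 1 ≤ d) (hx1 : 1 ≤ x) (hx4 : x ^ 4 ≤ d)
    (hΛ : 2 + 4 * Real.log (1 + 2 * (d * H) * d ^ 2) ≤ CΛ * x)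
    (hd2 : 200 * CT * CΛ ≤ (d : ℝ) ^ 2) (W : ℝ) (hWx : W ≤ CW * x)
    (hW1 : ∀ S : Finset ℂ, (∀ y ∈ S, iteratedDeriv n FF y = 0 ∧ y.im ≠ 0 ∧ ‖y‖ ≤ (2 * (d : ℝ)) ^ 16) →
      ∑ y ∈ S, (analyticOrderNatAt (iteratedDeriv n FF) y : ℝ) * (1 / √‖y‖) ≤ W) :
    (nonreal (jensen d n) : ℝ) ≤ √d * W * ((400 * CΛ * (1 + CW) + 3) * x ^ 2) +
      2 * CT * (200 * CΛ * (1 + CW)) ^ 2 / d ^ 2 := by
  have hd1 : (1 : ℝ) ≤ d := by exact_mod_cast hd
  have hd0 : (0 : ℝ) < d := by linarith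
  have hx0 : 0 < x := by linarith
  have hW0 : 0 ≤ W := by simpa using hW1 ∅ (by simp)
  have hxd : x ≤ d := by
    have : x ≤ x ^ 4 := by
      calc x = x * 1 := (mul_one x).symm
        _ ≤ x * x ^ 3 := mul_le_mul_of_nonneg_left (one_le_pow₀ hx1) hx0.le
        _ = x ^ 4 := by ring
    linarith
  obtain ⟨D, hD⟩ : ∃ D : ℝ, D = (2 * (d : ℝ)) ^ 16 := ⟨_, rfl⟩
  have h2d : 1 ≤ 2 * (d : ℝ) := by linarith
  have hDd : 2 * (d : ℝ) ≤ D := by
    rw [hD]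
    exact le_self_pow₀ h2d (by norm_num)
  have hD0 : 0 < D := by linarith
  have hDτ : D ^ (-(1 / 4) : ℝ) ≤ 1 / (d : ℝ) ^ 4 := by
    rw [hD, ← Real.rpow_natCast, ← Real.rpow_mul (by positivity)]
    have : ((16 : ℕ) : ℝ) * (-(1 / 4)) = -((4 : ℕ) : ℝ) := by norm_num
    rw [this, Real.rpow_neg (by positivity), Real.rpow_natCast, ← one_div]
    apply one_div_le_one_div_of_le (by positivity)
    exact pow_le_pow_left₀ hd0.le (by linarith) 4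
  obtain ⟨τ, hτ⟩ : ∃ τ : ℝ, τ = CT / (d : ℝ) ^ 4 := ⟨_, rfl⟩
  have hT1 : ∀ S : Finset ℂ, (∀ x ∈ S, iteratedDeriv n FF x = 0 ∧ x.im ≠ 0 ∧ D < ‖x‖) →
      ∑ x ∈ S, (analyticOrderNatAt (iteratedDeriv n FF) x : ℝ) * (1 / ‖x‖) ≤ τ := by
    intro S hS
    refine (hT n D hD0 S hS).trans ?_
    calc CT * D ^ (-(1 / 4) : ℝ) ≤ CT * (1 / (d : ℝ) ^ 4) :=
          mul_le_mul_of_nonneg_left hDτ hCT.le
      _ = τ := by rw [hτ]; ring
  have hsd1 : 1 ≤ √(d : ℝ) := by rw [Real.one_le_sqrt]; exact hd1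
  have hcondτ : 2 * d * τ * (CΛ * x) ≤ √d / 100 := by
    have e1 : 2 * d * τ * (CΛ * x) ≤ 2 * d * τ * (CΛ * d) := by
      have : 0 ≤ 2 * d * τ := by rw [hτ]; positivity
      gcongr
    have e2 : 2 * d * τ * (CΛ * d) = 2 * CT * CΛ / d ^ 2 := by
      rw [hτ]
      field_simp
    have e3 : 2 * CT * CΛ / (d : ℝ) ^ 2 ≤ 1 / 100 := by
      rw [div_le_iff₀ (by positivity)]
      linarith
    linarith
  have hmain := jcore H hH0 hH n d hd D W τ (CΛ * x) hDd hΛ (by rw [hD]; exact hW1) hT1 hcondτ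
  refine hmain.trans ?_
  have hW1' : 1 + W ≤ (1 + CW) * x := by nlinarith
  have g1 : 400 * (CΛ * x) * (1 + W) + 3 ≤ (400 * CΛ * (1 + CW) + 3) * x ^ 2 := by
    have e1 : 400 * (CΛ * x) * (1 + W) ≤ 400 * (CΛ * x) * ((1 + CW) * x) := by gcongr
    have e2 : (1 : ℝ) ≤ x ^ 2 := one_le_pow₀ hx1
    nlinarith
  have g2 : 2 * d * τ * (200 * (CΛ * x) * (1 + W)) ^ 2 ≤
      2 * CT * (200 * CΛ * (1 + CW)) ^ 2 / d ^ 2 := by
    have e1 : 200 * (CΛ * x) * (1 + W) ≤ 200 * CΛ * (1 + CW) * x ^ 2 := by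
      calc 200 * (CΛ * x) * (1 + W) ≤ 200 * (CΛ * x) * ((1 + CW) * x) := by gcongr
        _ = _ := by ring
    have e2 : (200 * (CΛ * x) * (1 + W)) ^ 2 ≤ (200 * CΛ * (1 + CW) * x ^ 2) ^ 2 :=
      pow_le_pow_left₀ (by positivity) e1 2
    have e3 : (200 * CΛ * (1 + CW) * x ^ 2) ^ 2 ≤ (200 * CΛ * (1 + CW)) ^ 2 * d := by
      calc (200 * CΛ * (1 + CW) * x ^ 2) ^ 2 = (200 * CΛ * (1 + CW)) ^ 2 * x ^ 4 := by ring
        _ ≤ _ := by gcongr
    have e4 : 0 ≤ 2 * d * τ := by rw [hτ]; positivity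
    calc 2 * d * τ * (200 * (CΛ * x) * (1 + W)) ^ 2
        ≤ 2 * d * τ * ((200 * CΛ * (1 + CW)) ^ 2 * d) :=
          mul_le_mul_of_nonneg_left (e2.trans e3) e4
      _ = _ := by
          rw [hτ]
          field_simp
  have g3 : √d * W * (400 * (CΛ * x) * (1 + W) + 3) ≤
      √d * W * ((400 * CΛ * (1 + CW) + 3) * x ^ 2) :=
    mul_le_mul_of_nonneg_left g1 (by positivity)
  linarith

theorem nat_double (m : ℕ) (X : ℝ) (hX : 0 ≤ X) (h : (m : ℝ) ≤ X + 1 / 2) : (m : ℝ) ≤ 2 * X := by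
  rcases Nat.eq_zero_or_pos m with h0 | h0
  · rw [h0]
    push_cast
    linarith
  · have : (1 : ℝ) ≤ m := by exact_mod_cast h0
    linarith

/-- **The square root bound**: at most `C d ^ (1/2 + ε) exp (-κ n)` zeros of `J^{d,n}` are non-real,
for every `κ < 4`. -/
theorem jq (hsum : S_SUM) (κ0 : ℝ) (hκ0 : κ0 < 4) (ε : ℝ) (hε : 0 < ε) : ∃ C : ℝ, 0 < C ∧
    ∀ d n : ℕ, 1 ≤ d →
      (nonreal (jensen d n) : ℝ) ≤ C * (d : ℝ) ^ (1 / 2 + ε) * Real.exp (-(κ0 * n)) := by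
  obtain ⟨κ, hκ1, hκ4, hκκ⟩ : ∃ κ : ℝ, 1 ≤ κ ∧ κ < 4 ∧ κ0 ≤ κ :=
    ⟨max κ0 1, le_max_right _ _, max_lt hκ0 (by norm_num), le_max_left _ _⟩
  have hκpos : 0 < κ := by linarith
  obtain ⟨η, hη⟩ : ∃ η : ℝ, η = min (ε / 8) (1 / 8) := ⟨_, rfl⟩
  have hη0 : 0 < η := by rw [hη]; exact lt_min (by positivity) (by norm_num)
  have hηε : η ≤ ε / 8 := by rw [hη]; exact min_le_left _ _
  have hη8 : η ≤ 1 / 8 := by rw [hη]; exact min_le_right _ _
  obtain ⟨δ, hδ⟩ : ∃ δ : ℝ, δ = ε / (8 * κ) := ⟨_, rfl⟩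
  have hδ0 : 0 < δ := by rw [hδ]; positivity
  have hκδ : κ * δ = ε / 8 := by rw [hδ]; field_simp
  obtain ⟨H, hH0, hH⟩ := S1_unif
  obtain ⟨CT, hCT, hT⟩ := T1_unif
  obtain ⟨Cs, hCs, hWs⟩ := W1_unif (η / 16) (by positivity)
  obtain ⟨CΛ, hCΛ, hΛ⟩ := log_pow_bound η hη0 H hH0
  obtain ⟨Cl, hCl, hl⟩ := log_sq_bound η hη0
  obtain ⟨C1, hC1, hS⟩ := hsum κ (δ / 16) hκpos hκ4 (by positivity)
  obtain ⟨C0, hC0, hJD⟩ := Pool.Agent.Zk6.JD.jd hsum κ (by linarith)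
  set Ca := Cs * 2 ^ η with hCa
  have hCa0 : 0 < Ca := by positivity
  set Cb := C1 * Cl with hCb
  have hCb0 : 0 < Cb := by positivity
  set Qa := 2 * CT * (200 * CΛ * (1 + Ca)) ^ 2 with hQa
  set Qb := 2 * CT * (200 * CΛ * (1 + Cb)) ^ 2 with hQb
  obtain ⟨d1, hd1⟩ : ∃ d1 : ℝ, d1 = 200 * CT * CΛ + 2 * Qb + 2 := ⟨_, rfl⟩
  have hQa0 : 0 < Qa := by positivity
  have hQb0 : 0 < Qb := by positivity
  have hCTΛ : 0 < 200 * CT * CΛ := by positivity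
  set Pa := Ca * (400 * CΛ * (1 + Ca) + 3) with hPa
  set Pb := Cb * (400 * CΛ * (1 + Cb) + 3) with hPb
  have hPa0 : 0 < Pa := by positivity
  have hPb0 : 0 < Pb := by positivity
  refine ⟨C0 * d1 + (Pa + Qa) + 2 * Pb, by rw [hd1]; positivity, fun d n hd => ?_⟩
  have hdd : (1 : ℝ) ≤ d := by exact_mod_cast hd
  have hd0 : (0 : ℝ) < d := by linarith
  have hn0 : (0 : ℝ) ≤ n := Nat.cast_nonneg _
  have hexp : Real.exp (-(κ * n)) ≤ Real.exp (-(κ0 * n)) := Real.exp_le_exp.2 (by nlinarith)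
  set E := Real.exp (-(κ * n)) with hE
  have hE0 : 0 < E := Real.exp_pos _
  have hE1 : E ≤ 1 := by
    rw [hE, Real.exp_le_one_iff]
    have : 0 ≤ κ * n := by positivity
    linarith
  set Y := (d : ℝ) ^ (1 / 2 + ε) with hY
  have hY1 : 1 ≤ Y := Real.one_le_rpow hdd (by positivity)
  have hY0 : 0 < Y := by linarith
  suffices hsuf : (nonreal (jensen d n) : ℝ) ≤ C0 * d1 * Y * E ∨
      (nonreal (jensen d n) : ℝ) ≤ (Pa + Qa) * Y * E ∨
      (nonreal (jensen d n) : ℝ) ≤ 2 * Pb * Y * E by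
    have hYE : 0 ≤ Y * E := by positivity
    have h1 : (nonreal (jensen d n) : ℝ) ≤ (C0 * d1 + (Pa + Qa) + 2 * Pb) * Y * E := by
      have k1 : 0 ≤ C0 * d1 := by rw [hd1]; positivity
      have k2 : 0 ≤ Pa + Qa := by positivity
      have k3 : 0 ≤ 2 * Pb := by positivity
      rcases hsuf with h | h | h
      · refine h.trans ?_
        rw [mul_assoc, mul_assoc (C0 * d1 + (Pa + Qa) + 2 * Pb)]
        exact mul_le_mul_of_nonneg_right (by linarith) hYE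
      · refine h.trans ?_
        rw [mul_assoc, mul_assoc (C0 * d1 + (Pa + Qa) + 2 * Pb)]
        exact mul_le_mul_of_nonneg_right (by linarith) hYE
      · refine h.trans ?_
        rw [mul_assoc, mul_assoc (C0 * d1 + (Pa + Qa) + 2 * Pb)]
        exact mul_le_mul_of_nonneg_right (by linarith) hYE
    refine h1.trans (mul_le_mul_of_nonneg_left hexp ?_)
    have k1 : 0 < d1 := by rw [hd1]; positivity
    positivity
  by_cases hdd1 : (d : ℝ) < d1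
  · left
    have h1 := hJD d n hd
    refine h1.trans ?_
    have h2 : C0 * d * E ≤ C0 * d1 * E := by gcongr
    refine h2.trans ?_
    have h3 : 0 ≤ C0 * d1 * E := by
      have : 0 < d1 := by linarith
      positivity
    calc C0 * d1 * E = C0 * d1 * E * 1 := (mul_one _).symm
      _ ≤ C0 * d1 * E * Y := mul_le_mul_of_nonneg_left hY1 h3
      _ = _ := by ring
  push Not at hdd1
  right
  have hd2 : (2 : ℝ) ≤ d := by linarith
  set x := (d : ℝ) ^ η with hx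
  have hx1 : 1 ≤ x := Real.one_le_rpow hdd hη0.le
  have hx0 : 0 < x := by linarith
  have hx4 : x ^ 4 ≤ d := by
    rw [hx, ← Real.rpow_natCast, ← Real.rpow_mul hd0.le]
    calc (d : ℝ) ^ (η * ((4 : ℕ) : ℝ)) ≤ (d : ℝ) ^ (1 : ℝ) :=
          Real.rpow_le_rpow_of_exponent_le hdd (by push_cast; linarith)
      _ = d := Real.rpow_one _
  have hx3 : x ^ 3 = (d : ℝ) ^ (3 * η) := by
    rw [hx, ← Real.rpow_natCast, ← Real.rpow_mul hd0.le]
    congr 1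
    push_cast
    ring
  have hdsq : (d : ℝ) ≤ (d : ℝ) ^ 2 := by nlinarith
  have hsq : √(d : ℝ) = (d : ℝ) ^ (1 / 2 : ℝ) := Real.sqrt_eq_rpow _
  have hcd : 200 * CT * CΛ ≤ (d : ℝ) ^ 2 := by linarith
  by_cases hcase : (n : ℝ) < δ * Real.log d
  · left
    have hmain := jpair H CT CΛ Ca x hH0 hCT hCΛ hCa0 hH hT n d hd hx1 hx4 (hΛ d hd) hcd (Ca * x)
      le_rfl (by
        intro S hS'
        refine (hWs n ((2 * (d : ℝ)) ^ 16) (by positivity) S hS').trans (le_of_eq ?_)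
        rw [← Real.rpow_natCast, ← Real.rpow_mul (by positivity)]
        have e1 : ((16 : ℕ) : ℝ) * (η / 16) = η := by push_cast; ring
        rw [e1, Real.mul_rpow (by norm_num) hd0.le, hCa, hx]
        ring)
    refine hmain.trans ?_
    rw [← hQa]
    have e1 : √d * (Ca * x) * ((400 * CΛ * (1 + Ca) + 3) * x ^ 2) = Pa * (√d * x ^ 3) := by
      rw [hPa]; ring
    rw [e1]
    have e2 : Qa / (d : ℝ) ^ 2 ≤ Qa := div_le_self hQa0.le (one_le_pow₀ hdd)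
    have e3 : 1 ≤ √d * x ^ 3 := by
      have k1 : 1 ≤ √(d : ℝ) := by rw [Real.one_le_sqrt]; exact hdd
      have k2 : 1 ≤ x ^ 3 := one_le_pow₀ hx1
      nlinarith
    have e4 : Pa * (√d * x ^ 3) + Qa / (d : ℝ) ^ 2 ≤ (Pa + Qa) * (√d * x ^ 3) := by nlinarith
    refine e4.trans ?_
    rw [mul_assoc (Pa + Qa)]
    refine mul_le_mul_of_nonneg_left ?_ (by positivity)
    have e5 : (d : ℝ) ^ (-(ε / 8)) ≤ E := by
      rw [Real.rpow_def_of_pos hd0, hE]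
      apply Real.exp_le_exp.2
      have : κ * n ≤ κ * (δ * Real.log d) := mul_le_mul_of_nonneg_left hcase.le hκpos.le
      have e6 : κ * (δ * Real.log d) = ε / 8 * Real.log d := by rw [← mul_assoc, hκδ]
      linarith
    calc √d * x ^ 3 = (d : ℝ) ^ (1 / 2 + 3 * η) := by rw [hsq, hx3, ← Real.rpow_add hd0]
      _ ≤ (d : ℝ) ^ ((1 / 2 + ε) + -(ε / 8)) :=
          Real.rpow_le_rpow_of_exponent_le hdd (by linarith)
      _ = Y * (d : ℝ) ^ (-(ε / 8)) := by rw [Real.rpow_add hd0]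
      _ ≤ Y * E := mul_le_mul_of_nonneg_left e5 hY0.le
  · push Not at hcase
    right
    obtain ⟨T, hT'⟩ : ∃ T : ℝ, T = (2 * (d : ℝ)) ^ 8 := ⟨_, rfl⟩
    have hT1 : 1 ≤ T := by rw [hT']; exact one_le_pow₀ (by linarith)
    have hT2 : T ^ 2 = (2 * (d : ℝ)) ^ 16 := by rw [hT']; ring
    have hlogT : δ / 16 * Real.log T ≤ n := by
      have e1 : Real.log T ≤ 16 * Real.log d := by
        rw [hT', Real.log_pow, Real.log_mul (by norm_num) hd0.ne']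
        have : Real.log 2 ≤ Real.log d := Real.log_le_log (by norm_num) hd2
        push_cast
        linarith
      calc δ / 16 * Real.log T ≤ δ / 16 * (16 * Real.log d) :=
            mul_le_mul_of_nonneg_left e1 (by positivity)
        _ = δ * Real.log d := by ring
        _ ≤ n := hcase
    have hl' := hl d hd
    rw [← hT'] at hl'
    obtain ⟨W, hW⟩ : ∃ W : ℝ, W = C1 * (Real.log (T + 2)) ^ 2 * E := ⟨_, rfl⟩
    have hWb : W ≤ Cb * x * E := by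
      rw [hW, hCb, mul_assoc C1 Cl x]
      have := mul_le_mul_of_nonneg_left hl' hC1.le
      exact mul_le_mul_of_nonneg_right this hE0.le
    have hWx : W ≤ Cb * x := hWb.trans (mul_le_of_le_one_right (by positivity) hE1)
    have hmain := jpair H CT CΛ Cb x hH0 hCT hCΛ hCb0 hH hT n d hd hx1 hx4 (hΛ d hd) hcd W hWx (by
        intro S hS'
        rw [hW]
        refine le_trans (le_of_eq ?_) (hS n T hT1 hlogT S fun y hy => ?_)
        · refine Finset.sum_congr rfl fun y _ => ?_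
          rw [mul_one_div]
        · rw [hT2]
          exact hS' y hy)
    rw [← hQb] at hmain
    have e1 : Qb / (d : ℝ) ^ 2 ≤ 1 / 2 := by
      rw [div_le_iff₀ (by positivity)]
      linarith
    have e2 : √d * W * ((400 * CΛ * (1 + Cb) + 3) * x ^ 2) ≤ Pb * (√d * x ^ 3) * E := by
      calc √d * W * ((400 * CΛ * (1 + Cb) + 3) * x ^ 2)
          ≤ √d * (Cb * x * E) * ((400 * CΛ * (1 + Cb) + 3) * x ^ 2) := by gcongr
        _ = _ := by rw [hPb]; ring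
    have e3 : √d * x ^ 3 ≤ Y := by
      calc √d * x ^ 3 = (d : ℝ) ^ (1 / 2 + 3 * η) := by rw [hsq, hx3, ← Real.rpow_add hd0]
        _ ≤ (d : ℝ) ^ (1 / 2 + ε) := Real.rpow_le_rpow_of_exponent_le hdd (by linarith)
    have e4 : (nonreal (jensen d n) : ℝ) ≤ Pb * Y * E + 1 / 2 := by
      have : Pb * (√d * x ^ 3) * E ≤ Pb * Y * E := by gcongr
      linarith
    have e5 := nat_double _ _ (by positivity) e4
    calc (nonreal (jensen d n) : ℝ) ≤ 2 * (Pb * Y * E) := e5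
      _ = _ := by ring

end Pool.Agent.Zk17.JQ
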