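import Pool.Agent.Zk6.JD3

set_option autoImplicit false

/-!
# Jensen polynomials, square root bound, step 1: linear factors, local gap counting
-/

namespace Pool.Agent.Zk17.JQ

open Polynomial Set
open Pool.Agent.TH99.RJ (cnt cnt_union cnt_mono cnt_univ nonreal nonreal_eq cnt_lin rop rop_lin)
open Pool.Agent.Zk6.JD

theorem nonreal_even (p : ℝ[X]) : Even (nonreal p) := by
  classical
  set Q := p.map (algebraMap ℝ ℂ) with hQ
  have h1 : Q.map (starRingEnd ℂ) = Q := by
    rw [hQ, Polynomial.map_map]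
    congr 1
    ext x
    simp
  have h2 : Q.roots.map (starRingEnd ℂ) = Q.roots := by
    have h3 := (IsAlgClosed.splits Q).roots_map (starRingEnd ℂ)
    rw [h1] at h3
    exact h3.symm
  have h3 : (Q.roots.filter fun z => 0 < z.im).card = (Q.roots.filter fun z => z.im < 0).card := by
    conv_lhs => rw [← h2]
    rw [Multiset.filter_map, Multiset.card_map]
    congr 2
    funext z
    simp
  have h4 : nonreal p = (Q.roots.filter fun z => 0 < z.im).card +
      (Q.roots.filter fun z => z.im < 0).card := by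
    unfold nonreal
    rw [← Multiset.card_add, ← hQ]
    have h5 := Multiset.filter_add_filter (fun z : ℂ => 0 < z.im) (fun z => z.im < 0) Q.roots
    have h6 : Multiset.filter (fun a : ℂ => 0 < a.im ∧ a.im < 0) Q.roots = 0 := by
      rw [Multiset.filter_eq_nil]
      intro a _ hcon
      linarith [hcon.1, hcon.2]
    rw [h6, add_zero] at h5
    rw [h5]
    congr 1
    refine Multiset.filter_congr fun z _ => ?_
    rw [ne_iff_lt_or_gt, or_comm]
  exact ⟨_, by rw [h4, ← h3]⟩

/-- a linear factor does not create non-real zeros -/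
theorem nonreal_lin (r : ℝ) (hr : r ≠ 0) (P : ℝ[X]) (hP : P ≠ 0) :
    nonreal (rop (X - C r) P) ≤ nonreal P := by
  classical
  rw [rop_lin]
  set Q := derivative P - C r * P with hQ
  have hdeg : Q.natDegree = P.natDegree ∧ Q ≠ 0 := by
    have h1 : (C r * P).degree = P.degree := degree_C_mul hr
    have h2 : (derivative P).degree < (C r * P).degree := by
      rw [h1]; exact degree_derivative_lt hP
    have h3 : Q.degree = P.degree := by
      rw [hQ, degree_sub_eq_right_of_degree_lt h2, h1]
    refine ⟨natDegree_eq_of_degree_eq h3, ?_⟩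
    rintro h
    rw [h, degree_zero] at h3
    exact hP (degree_eq_bot.1 h3.symm)
  obtain ⟨hd, hQ0⟩ := hdeg
  -- an interval that contains all real zeros of P
  obtain ⟨R, hR⟩ : ∃ R : ℝ, ∀ x ∈ P.roots, |x| ≤ R := by
    refine ⟨(P.roots.map fun x => |x|).sum, fun x hx => ?_⟩
    exact Multiset.single_le_sum (by
      intro y hy
      obtain ⟨z, -, rfl⟩ := Multiset.mem_map.1 hy
      exact abs_nonneg z) _ (Multiset.mem_map_of_mem _ hx)
  have h1 := cnt_lin P r hQ0 (-R) (2 * R + 1)
  have h20 : ∀ p : ℝ[X], cnt p (Ico (-R) (-R + (2 * R + 1))) =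
      (p.roots.filter (· ∈ Ico (-R) (-R + (2 * R + 1)))).card := by
    intro p
    unfold cnt
    congr!
  have h2 : cnt P (Ico (-R) (-R + (2 * R + 1))) = P.roots.card := by
    rw [h20]
    congr 1
    rw [Multiset.filter_eq_self]
    intro x hx
    have := abs_le.1 (hR x hx)
    exact ⟨this.1, by linarith [this.2]⟩
  have h3 : cnt Q (Ico (-R) (-R + (2 * R + 1))) ≤ Q.roots.card := by
    rw [h20]
    exact Multiset.card_le_card (Multiset.filter_le _ _)
  rw [h2] at h1
  rw [← hQ] at h1
  have h4 := nonreal_eq P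
  have h5 := nonreal_eq Q
  obtain ⟨a, ha⟩ := nonreal_even P
  obtain ⟨b, hb⟩ := nonreal_even Q
  omega

theorem bad_pos (α β : ℝ) (hβ : 0 < β) (P : ℝ[X]) (hP : P ≠ 0) {p q : ℝ} (hpq : p < q)
    (hp : P.eval p = 0) (hq : P.eval q = 0) (hpos : ∀ y, p < y → y < q → 0 < P.eval y)
    (hT : ∀ y, p < y → y < q → 0 ≤ (TT α β P).eval y) :
    ∃ x1, p < x1 ∧ x1 + Real.pi / (4 * β) < q ∧ ∀ x, x1 < x → x < x1 + Real.pi / (4 * β) →
      α - β ≤ (derivative P).eval x / P.eval x ∧ (derivative P).eval x / P.eval x ≤ α := by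
  classical
  set W : ℝ[X] := derivative P - C α * P with hW
  have hWev : ∀ x, W.eval x = (derivative P).eval x - α * P.eval x := by
    intro x
    simp [hW]
  have hW0 : W ≠ 0 := by
    intro h
    have h1 : derivative P = C α * P := sub_eq_zero.1 h
    have h2 := degree_derivative_lt hP
    by_cases hα : α = 0
    · rw [hα, C_0, zero_mul] at h1
      have h3 := derivative_eq_zero.1 h1
      rw [eq_C_of_natDegree_eq_zero h3, eval_C] at hp
      apply hP
      rw [eq_C_of_natDegree_eq_zero h3, hp, C_0]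
    · rw [h1, degree_C_mul hα] at h2
      exact lt_irrefl _ h2
  -- Rolle
  obtain ⟨c, hc, hc0⟩ := exists_hasDerivAt_eq_zero (f := fun x => Real.exp (-α * x) * P.eval x)
    (f' := fun x => Real.exp (-α * x) * ((derivative P).eval x + -α * P.eval x)) hpq
    (fun y _ => (hasDerivAt_expP (-α) P y).continuousAt.continuousWithinAt)
    (by simp only [hp, hq, mul_zero]) (fun y _ => hasDerivAt_expP (-α) P y)
  have hWc : W.eval c = 0 := by
    rw [hWev]
    have := (mul_eq_zero.1 hc0).resolve_left (Real.exp_pos _).ne'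
    linarith
  set F := W.roots.toFinset.filter fun y => p < y ∧ y < q with hF
  have hne : F.Nonempty :=
    ⟨c, Finset.mem_filter.2 ⟨Multiset.mem_toFinset.2 ((mem_roots hW0).2 hWc), hc.1, hc.2⟩⟩
  obtain ⟨x1, hx1⟩ : ∃ x1, x1 = F.max' hne := ⟨_, rfl⟩
  have hmem := Finset.mem_filter.1 (F.max'_mem hne)
  rw [Multiset.mem_toFinset, mem_roots hW0, ← hx1] at hmem
  obtain ⟨hWx1, hpx1, hx1q⟩ := hmem
  have hWx1 : W.eval x1 = 0 := hWx1
  have hno : ∀ y, x1 < y → y < q → W.eval y ≠ 0 := by
    intro y h1 h2 h3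
    have : y ∈ F := Finset.mem_filter.2 ⟨Multiset.mem_toFinset.2 ((mem_roots hW0).2 h3),
      hpx1.trans h1, h2⟩
    have := F.le_max' y this
    rw [← hx1] at this
    linarith
  have hneg : ∀ y, x1 < y → y < q → W.eval y < 0 := by
    intro y h1 h2
    by_contra hcon
    push Not at hcon
    have hWy : 0 < W.eval y := lt_of_le_of_ne hcon (hno y h1 h2).symm
    refine no_increase (-α) P hx1q (hpos x1 hpx1 hx1q) hq fun z h3 h4 => ?_
    have h5 : 0 < W.eval z := by
      rcases le_total y z with h | h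
      · have := same_sign W h fun u h6 h7 => hno u (h1.trans_le h6) (h7.trans_lt h4)
        exact (mul_pos_iff_of_pos_left hWy).1 this
      · have := same_sign W h fun u h6 h7 => hno u (h3.trans_le h6) (h7.trans_lt h2)
        exact (mul_pos_iff_of_pos_right hWy).1 this
    rw [hWev] at h5
    linarith
  -- the arctangent
  have hPpos : ∀ y, x1 ≤ y → y < q → 0 < P.eval y := fun y h1 h2 => hpos y (hpx1.trans_le h1) h2
  have hder : ∀ y, x1 ≤ y → y < q → HasDerivAt
      (fun x => Real.arctan (W.eval x / P.eval x / β) + β * x)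
      (1 / (1 + (W.eval y / P.eval y / β) ^ 2) * (((derivative W).eval y * P.eval y -
        W.eval y * (derivative P).eval y) / P.eval y ^ 2 / β) + β * 1) y := by
    intro y h1 h2
    have h3 := hPpos y h1 h2
    exact ((((W.hasDerivAt y).div (P.hasDerivAt y) h3.ne').div_const β).arctan).add
      ((hasDerivAt_id y).const_mul β)
  have hmono : MonotoneOn (fun x => Real.arctan (W.eval x / P.eval x / β) + β * x) (Ico x1 q) := by
    refine monotoneOn_of_deriv_nonneg (convex_Ico x1 q) ?_ ?_ ?_
    · exact fun y hy => (hder y hy.1 hy.2).continuousAt.continuousWithinAt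
    · intro y hy
      rw [interior_Ico] at hy
      exact (hder y hy.1.le hy.2).differentiableAt.differentiableWithinAt
    · intro y hy
      rw [interior_Ico] at hy
      rw [(hder y hy.1.le hy.2).deriv]
      have h3 := hPpos y hy.1.le hy.2
      have h4 := hT y (hpx1.trans hy.1) hy.2
      have h5 : (TT α β P).eval y = (derivative (derivative P)).eval y -
          2 * α * (derivative P).eval y + (α ^ 2 + β ^ 2) * P.eval y := by
        simp [TT]
      have h6 : (derivative W).eval y = (derivative (derivative P)).eval y -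
          α * (derivative P).eval y := by
        simp [hW]
      rw [h5] at h4
      rw [h6, hWev]
      set a := P.eval y
      set b := (derivative P).eval y
      set e := (derivative (derivative P)).eval y
      have h7 : 1 / (1 + ((b - α * a) / a / β) ^ 2) * (((e - α * b) * a - (b - α * a) * b) / a ^ 2 / β)
          + β * 1 = (1 / (1 + ((b - α * a) / a / β) ^ 2)) * ((e - 2 * α * b + (α ^ 2 + β ^ 2) * a) /
            (a * β)) := by
        have h8 : (0 : ℝ) < 1 + ((b - α * a) / a / β) ^ 2 := by positivity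
        have h9 : β * 1 = (1 / (1 + ((b - α * a) / a / β) ^ 2)) *
            (β * (1 + ((b - α * a) / a / β) ^ 2)) := by
          field_simp
        rw [h9, ← mul_add]
        congr 1
        field_simp
        ring
      rw [h7]
      positivity
  have hat : ∀ y, x1 < y → y < q → y ≤ x1 + Real.pi / (4 * β) → -(β * P.eval y) ≤ W.eval y := by
    intro y h1 h2 h3
    have h4 := hmono (left_mem_Ico.2 hx1q) ⟨h1.le, h2⟩ h1.le
    simp only [hWx1, zero_div, Real.arctan_zero, zero_add] at h4
    have h5 : β * (y - x1) ≤ Real.pi / 4 := by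
      have : β * (y - x1) ≤ β * (Real.pi / (4 * β)) :=
        mul_le_mul_of_nonneg_left (by linarith) hβ.le
      have h6 : β * (Real.pi / (4 * β)) = Real.pi / 4 := by
        field_simp
      rwa [h6] at this
    have h6 : Real.arctan (-1) ≤ Real.arctan (W.eval y / P.eval y / β) := by
      rw [Real.arctan_neg, Real.arctan_one]
      linarith
    have h7 := Real.arctan_strictMono.le_iff_le.1 h6
    have h8 := hPpos y h1.le h2
    rw [div_div, le_div_iff₀ (by positivity)] at h7
    linarith
  have hend : x1 + Real.pi / (4 * β) < q := by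
    by_contra hcon
    push Not at hcon
    refine no_increase (β - α) P hx1q (hpos x1 hpx1 hx1q) hq fun z h3 h4 => ?_
    have h5 := hat z h3 h4 (h4.le.trans hcon)
    rw [hWev] at h5
    linarith
  refine ⟨x1, hpx1, hend, fun x h1 h2 => ?_⟩
  have h3 := hPpos x h1.le (h2.trans hend)
  have h4 := hat x h1 (h2.trans hend) h2.le
  have h5 := hneg x h1 (h2.trans hend)
  rw [hWev] at h4 h5
  constructor
  · rw [le_div_iff₀ h3]
    linarith
  · rw [div_le_iff₀ h3]
    linarith

theorem bad_interval (α β : ℝ) (hβ : 0 < β) (P : ℝ[X]) (hP : P ≠ 0) {p q : ℝ}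
    (h : Bad α β P p q) :
    ∃ x1, p < x1 ∧ x1 + Real.pi / (4 * β) < q ∧ ∀ x, x1 < x → x < x1 + Real.pi / (4 * β) →
      α - β ≤ (derivative P).eval x / P.eval x ∧ (derivative P).eval x / P.eval x ≤ α := by
  obtain ⟨⟨hpq, hp, hq, hno⟩, hT⟩ := h
  set m := (p + q) / 2 with hm
  have hm1 : p < m := by rw [hm]; linarith
  have hm2 : m < q := by rw [hm]; linarith
  rcases lt_or_gt_of_ne (hno m hm1 hm2) with hs | hs
  · have hpos : ∀ y, p < y → y < q → 0 < (-P).eval y := by
      intro y h1 h2
      rw [eval_neg]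
      have h5 : P.eval y < 0 := by
        rcases le_total y m with h | h
        · have := same_sign P h fun u h6 h7 => hno u (h1.trans_le h6) (h7.trans_lt hm2)
          by_contra hcon
          push Not at hcon
          have := mul_nonpos_of_nonneg_of_nonpos hcon hs.le
          linarith
        · have := same_sign P h fun u h6 h7 => hno u (hm1.trans_le h6) (h7.trans_lt h2)
          by_contra hcon
          push Not at hcon
          have := mul_nonpos_of_nonpos_of_nonneg hs.le hcon
          linarith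
      linarith
    obtain ⟨x1, h1, h2, h3⟩ := bad_pos α β hβ (-P) (neg_ne_zero.2 hP) hpq (by simp [hp])
      (by simp [hq]) hpos (by
        intro y h1 h2
        have h3 := hT y h1 h2
        have h4 := hpos y h1 h2
        rw [eval_neg] at h4
        rw [TT_neg, eval_neg]
        by_contra hcon
        push Not at hcon
        have h5 : 0 < (TT α β P).eval y := by linarith
        have := mul_neg_of_neg_of_pos (show P.eval y < 0 by linarith) h5
        linarith)
    refine ⟨x1, h1, h2, fun x h4 h5 => ?_⟩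
    have h6 := h3 x h4 h5
    rw [derivative_neg, eval_neg, eval_neg, neg_div_neg_eq] at h6
    exact h6
  · have hpos : ∀ y, p < y → y < q → 0 < P.eval y := by
      intro y h1 h2
      rcases le_total y m with h | h
      · have := same_sign P h fun u h6 h7 => hno u (h1.trans_le h6) (h7.trans_lt hm2)
        exact (mul_pos_iff_of_pos_right hs).1 this
      · have := same_sign P h fun u h6 h7 => hno u (hm1.trans_le h6) (h7.trans_lt h2)
        exact (mul_pos_iff_of_pos_left hs).1 this
    exact bad_pos α β hβ P hP hpq hp hq hpos (by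
      intro y h1 h2
      have h3 := hT y h1 h2
      have h4 := hpos y h1 h2
      by_contra hcon
      push Not at hcon
      have := mul_neg_of_pos_of_neg h4 hcon
      linarith)

/-- counting inside a set -/
theorem sum_cnt_le' {ι : Type} (p : ℝ[X]) (I : Finset ι) (S : ι → Set ℝ) (U : Set ℝ)
    (hU : ∀ i ∈ I, S i ⊆ U) (hS : ∀ i ∈ I, ∀ j ∈ I, i ≠ j → Disjoint (S i) (S j)) :
    ∑ i ∈ I, cnt p (S i) ≤ cnt p U := by
  classical
  have h : ∀ v : Multiset ℝ, ∑ i ∈ I, (v.filter (· ∈ S i)).card ≤ (v.filter (· ∈ U)).card := by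
    intro v
    induction v using Multiset.induction_on with
    | empty => simp
    | cons a v ih =>
      have h1 : ∀ i ∈ I, ((a ::ₘ v).filter (· ∈ S i)).card =
          (v.filter (· ∈ S i)).card + if a ∈ S i then 1 else 0 := by
        intro i _
        by_cases ha : a ∈ S i
        · rw [Multiset.filter_cons_of_pos _ ha, Multiset.card_cons, if_pos ha]
        · rw [Multiset.filter_cons_of_neg _ ha, if_neg ha, add_zero]
      have h2 : ((a ::ₘ v).filter (· ∈ U)).card =
          (v.filter (· ∈ U)).card + if a ∈ U then 1 else 0 := by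
        by_cases ha : a ∈ U
        · rw [Multiset.filter_cons_of_pos _ ha, Multiset.card_cons, if_pos ha]
        · rw [Multiset.filter_cons_of_neg _ ha, if_neg ha, add_zero]
      rw [Finset.sum_congr rfl h1, Finset.sum_add_distrib, h2]
      refine Nat.add_le_add ih ?_
      rw [← Finset.card_filter]
      by_cases haU : a ∈ U
      · rw [if_pos haU, Finset.card_le_one]
        intro i hi j hj
        by_contra hij
        exact Set.disjoint_left.1 (hS i (Finset.mem_filter.1 hi).1 j (Finset.mem_filter.1 hj).1 hij)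
          (Finset.mem_filter.1 hi).2 (Finset.mem_filter.1 hj).2
      · rw [if_neg haU, Nat.le_zero, Finset.card_eq_zero, Finset.filter_eq_empty_iff]
        exact fun i hi h => haU (hU i hi h)
  have := h p.roots
  unfold cnt
  refine le_trans (le_of_eq ?_) (this.trans (le_of_eq ?_))
  · refine Finset.sum_congr rfl fun i _ => ?_
    congr!
  · congr!

/-- **Local gap counting**: if no gap in `[u, v]` is bad, at most four zeros are lost there. -/
theorem gap_local (α β : ℝ) (P : ℝ[X]) (hP : P ≠ 0) (hQ : TT α β P ≠ 0) (u v : ℝ)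
    (hgood : ∀ p q, u ≤ p → q ≤ v → ¬ Bad α β P p q) :
    cnt P (Icc u v) ≤ cnt (TT α β P) (Icc u v) + 4 := by
  classical
  set Q := TT α β P with hQdef
  set R := P.roots.toFinset.filter (fun r => r ∈ Icc u v) with hR
  have hRmem : ∀ r, r ∈ R ↔ P.eval r = 0 ∧ u ≤ r ∧ r ≤ v := by
    intro r
    rw [hR, Finset.mem_filter, Multiset.mem_toFinset, mem_roots hP]
    rfl
  set FR : ℝ → Prop := fun p => ∃ q ξ, Cons P p q ∧ q ≤ v ∧ p < ξ ∧ ξ < q ∧ P.eval ξ * Q.eval ξ < 0
    with hFR
  have hg' : ∀ p, ∃ ξ, FR p → ∃ q, Cons P p q ∧ q ≤ v ∧ p < ξ ∧ ξ < q ∧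
      P.eval ξ * Q.eval ξ < 0 := by
    intro p
    by_cases h : FR p
    · obtain ⟨q, ξ, h1⟩ := h
      exact ⟨ξ, fun _ => ⟨q, h1⟩⟩
    · exact ⟨0, fun h' => absurd h' h⟩
  choose g hg using hg'
  set FL : ℝ → Prop := fun r => ∃ p, Cons P p r ∧ u ≤ p ∧ FR p with hFL
  have hk' : ∀ r, ∃ p, FL r → Cons P p r ∧ u ≤ p ∧ FR p := by
    intro r
    by_cases h : FL r
    · obtain ⟨p, h1⟩ := h
      exact ⟨p, fun _ => h1⟩
    · exact ⟨0, fun h' => absurd h' h⟩
  choose k hk using hk'
  set S : ℝ → Set ℝ := fun r => if FR r ∧ FL r then Ioo (g (k r)) (g r) else {r} with hS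
  -- ordering facts
  have key1 : ∀ r s, FR r → P.eval s = 0 → r < s → g r < s := by
    intro r s h1 h2 h3
    obtain ⟨q, h4, -, -, h5, -⟩ := hg r h1
    exact h5.trans_le (h4.le h2 h3)
  have key2 : ∀ r, FR r → r < g r := fun r h => (hg r h).choose_spec.2.2.1
  have key3 : ∀ r, FR r → g r < v := fun r h =>
    ((hg r h).choose_spec.2.2.2.1).trans_le (hg r h).choose_spec.2.1
  have hdisj : ∀ r1 r2, P.eval r1 = 0 → P.eval r2 = 0 → r1 < r2 → Disjoint (S r1) (S r2) := by
    intro r1 r2 h1 h2 h3
    rw [Set.disjoint_left]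
    intro y hy1 hy2
    by_cases f1 : FR r1 ∧ FL r1
    · simp only [hS, if_pos f1] at hy1
      have e1 : g r1 < r2 := key1 r1 r2 f1.1 h2 h3
      by_cases f2 : FR r2 ∧ FL r2
      · simp only [hS, if_pos f2] at hy2
        obtain ⟨e2, -, e3⟩ := hk r2 f2.2
        rcases lt_or_eq_of_le (e2.ge h1 h3) with e4 | e4
        · have e5 := key1 r1 (k r2) f1.1 e2.2.1 e4
          have e6 := key2 _ e3
          linarith [hy1.2, hy2.1]
        · rw [← e4] at hy2
          linarith [hy1.2, hy2.1]
      · simp only [hS, if_neg f2, mem_singleton_iff] at hy2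
        rw [hy2] at hy1
        linarith [hy1.2]
    · simp only [hS, if_neg f1, mem_singleton_iff] at hy1
      rw [hy1] at hy2
      by_cases f2 : FR r2 ∧ FL r2
      · simp only [hS, if_pos f2] at hy2
        obtain ⟨e2, -, e3⟩ := hk r2 f2.2
        have e4 := e2.ge h1 h3
        have e6 := key2 _ e3
        linarith [hy2.1]
      · simp only [hS, if_neg f2, mem_singleton_iff] at hy2
        exact h3.ne hy2
  have hdisj2 : ∀ r1 ∈ R, ∀ r2 ∈ R, r1 ≠ r2 → Disjoint (S r1) (S r2) := by
    intro r1 h1 r2 h2 h3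
    rcases lt_or_gt_of_ne h3 with h | h
    · exact hdisj r1 r2 ((hRmem _).1 h1).1 ((hRmem _).1 h2).1 h
    · exact (hdisj r2 r1 ((hRmem _).1 h2).1 ((hRmem _).1 h1).1 h).symm
  have hsubU : ∀ r ∈ R, S r ⊆ Icc u v := by
    intro r hr y hy
    obtain ⟨h1, h2, h3⟩ := (hRmem _).1 hr
    by_cases f : FR r ∧ FL r
    · simp only [hS, if_pos f] at hy
      obtain ⟨e1, e2, e3⟩ := hk r f.2
      have e4 := key2 _ e3
      have e5 := key3 _ f.1
      exact ⟨by linarith [hy.1], by linarith [hy.2]⟩
    · simp only [hS, if_neg f, mem_singleton_iff] at hy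
      rw [hy]
      exact ⟨h2, h3⟩
  have hsum := sum_cnt_le' Q R S (Icc u v) hsubU hdisj2
  have hlocal : ∀ r ∈ R, P.rootMultiplicity r ≤ cnt Q (S r) + if FR r ∧ FL r then 0 else 2 := by
    intro r _
    by_cases f : FR r ∧ FL r
    · rw [if_pos f, add_zero]
      simp only [hS, if_pos f]
      obtain ⟨e1, -, e2⟩ := hk r f.2
      obtain ⟨q1, e3, -, e4, e5, e6⟩ := hg _ e2
      obtain ⟨q2, e7, -, e8, e9, e10⟩ := hg _ f.1
      have e11 : q1 = r := e3.uniq e1
      rw [e11] at e5
      refine local_fine P hP α β hQ e5 e8 ?_ e6 e10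
      intro y h1 h2 h3
      rcases lt_or_gt_of_ne h3 with h | h
      · exact e1.2.2.2 y (e4.trans_le h1) h
      · exact e7.2.2.2 y h (h2.trans_lt e9)
    · rw [if_neg f]
      simp only [hS, if_neg f]
      exact local_any P hP α β hQ r
  have hcardP : cnt P (Icc u v) = ∑ r ∈ R, P.rootMultiplicity r := by
    have h1 : cnt P (Icc u v) = (P.roots.filter (· ∈ Icc u v)).card := by
      unfold cnt
      congr!
    rw [h1, ← Multiset.toFinset_sum_count_eq, Multiset.toFinset_filter]
    refine Finset.sum_congr rfl fun r hr => ?_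
    rw [Multiset.count_filter_of_pos (Finset.mem_filter.1 hr).2, count_roots]
  have hstep : cnt P (Icc u v) ≤ cnt Q (Icc u v) + 2 * (R.filter fun r => ¬ (FR r ∧ FL r)).card := by
    rw [hcardP]
    refine (Finset.sum_le_sum hlocal).trans ?_
    rw [Finset.sum_add_distrib]
    refine Nat.add_le_add hsum ?_
    have : ∀ r ∈ R, (if FR r ∧ FL r then 0 else 2) = 2 * (if ¬ (FR r ∧ FL r) then 1 else 0) := by
      intro r _
      by_cases f : FR r ∧ FL r
      · rw [if_pos f, if_neg (not_not.2 f)]
      · rw [if_neg f, if_pos f]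
    rw [Finset.sum_congr rfl this, ← Finset.mul_sum, Finset.card_filter]
  -- the not fine ones
  have hbad : ∀ p q, Cons P p q → u ≤ p → q ≤ v → FR p := by
    intro p q h1 h2 h3
    by_contra h4
    refine hgood p q h2 h3 ⟨h1, fun y h5 h6 => ?_⟩
    by_contra hcon
    push Not at hcon
    exact h4 ⟨q, y, h1, h3, h5, h6, hcon⟩
  rcases R.eq_empty_or_nonempty with hRe | hRn
  · rw [hRe, Finset.sum_empty] at hcardP
    omega
  have c3 : (R.filter fun r => ¬ (FR r ∧ FL r)) ⊆ {R.max' hRn, R.min' hRn} := by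
    intro r hr
    rw [Finset.mem_filter] at hr
    rw [Finset.mem_insert, Finset.mem_singleton]
    by_contra hcon
    push Not at hcon
    obtain ⟨hr1, hr2, hr3⟩ := (hRmem r).1 hr.1
    obtain ⟨hM1, hM2, hM3⟩ := (hRmem _).1 (R.max'_mem hRn)
    obtain ⟨hm1, hm2, hm3⟩ := (hRmem _).1 (R.min'_mem hRn)
    have h1 : r < R.max' hRn := lt_of_le_of_ne (R.le_max' r hr.1) hcon.1
    have h2 : R.min' hRn < r := lt_of_le_of_ne (R.min'_le r hr.1) (Ne.symm hcon.2)
    obtain ⟨q, h3⟩ := exists_next hP hr1 hM1 h1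
    obtain ⟨p, h4⟩ := exists_prev hP hr1 hm1 h2
    have h5 : q ≤ v := (h3.le hM1 h1).trans hM3
    have h6 : u ≤ p := hm2.trans (h4.ge hm1 h2)
    exact hr.2 ⟨hbad r q h3 hr2 h5, p, h4, h6, hbad p r h4 h6 hr3⟩
  have d1 := Finset.card_le_card c3
  have d2 : ({R.max' hRn, R.min' hRn} : Finset ℝ).card ≤ 2 := Finset.card_le_two
  omega

end Pool.Agent.Zk17.JQ
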