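import Pool.Agent.Zk17.JQ.A
import Pool.Agent.Zk6.JD6

set_option autoImplicit false

/-!
# Jensen polynomials, square root bound, step 2: no bad gaps near the origin
-/

namespace Pool.Agent.Zk17.JQ

open Polynomial Set MeasureTheory
open Pool.Agent.TH99.RJ (cnt cnt_union cnt_mono cnt_univ nonreal nonreal_eq aeval_eq_map)
open Pool.Agent.Zk6.JD (TT Bad Cons markov logder_bound aeval_coe)

/-- splitting off some of the real zeros in the logarithmic derivative -/
theorem logder_sub (P q : ℝ[X]) (A : Multiset ℝ) (hq : (A.map fun a => X - C a).prod * q = P) (x : ℝ)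
    (hx : P.eval x ≠ 0) :
    (derivative P).eval x / P.eval x = (A.map fun t => 1 / (x - t)).sum +
      (derivative q).eval x / q.eval x := by
  induction A using Multiset.induction_on generalizing P with
  | empty =>
    rw [Multiset.map_zero, Multiset.prod_zero, one_mul] at hq
    rw [hq, Multiset.map_zero, Multiset.sum_zero, zero_add]
  | cons a A ih =>
    rw [Multiset.map_cons, Multiset.prod_cons, mul_assoc] at hq
    set P' := (A.map fun a => X - C a).prod * q with hP'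
    have h1 : P.eval x = (x - a) * P'.eval x := by
      rw [← hq, eval_mul]
      simp
    have h2 : x - a ≠ 0 := fun h => hx (by rw [h1, h, zero_mul])
    have h3 : P'.eval x ≠ 0 := fun h => hx (by rw [h1, h, mul_zero])
    have h4 : (derivative P).eval x = P'.eval x + (x - a) * (derivative P').eval x := by
      rw [← hq, derivative_mul]
      simp
    have h5 := ih P' rfl h3
    rw [Multiset.map_cons, Multiset.sum_cons, add_assoc, ← h5, h1, h4]
    field_simp

theorem no_bad (d : ℕ) (α β r Rb Λ : ℝ) (P : ℝ[X]) (hP : P ≠ 0) (hdeg : P.natDegree = d)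
    (hd : 1 ≤ d) (hα : -(2 * (d : ℝ)) ≤ α) (hβ : 0 < β) (hβ2 : β ^ 2 ≤ 3 * d) (hr0 : 0 < r)
    (hr : r ≤ 1 / 40) (hX : ∀ z : ℂ, aeval z P = 0 → ‖z‖ ≤ Rb) (hR : 0 ≤ Rb)
    (hΛ : 2 + 4 * Real.log (1 + 2 * Rb * d ^ 2) ≤ Λ)
    (hN : ∀ σ, 0 < σ → σ ≤ r → ((d : ℝ) - cnt P (Icc (-σ) 0)) * σ * Λ ≤ √d / 40) :
    ∀ p q, -r ≤ p → q ≤ 0 → ¬ Bad α β P p q := by
  classical
  intro p q hp hq hbad
  have hd1 : (1 : ℝ) ≤ d := by exact_mod_cast hd
  have hd0 : (0 : ℝ) < d := by linarith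
  obtain ⟨x1, h1, h2, h3⟩ := bad_interval α β hβ P hP hbad
  obtain ⟨⟨hpq, hPp, hPq, hno⟩, -⟩ := hbad
  set ℓ := Real.pi / (4 * β) with hℓ
  have hℓ0 : 0 < ℓ := by positivity
  set σ := -(x1 + ℓ / 2) with hσ
  have hσ1 : ℓ / 2 < σ := by rw [hσ]; linarith
  have hσ0 : 0 < σ := by linarith
  have hσr : σ ≤ r := by rw [hσ]; linarith
  have hNσ := hN σ hσ0 hσr
  -- the sum of zeros
  set A : Multiset ℝ := P.roots.filter (· ∈ Icc (-σ) 0) with hA
  have hcnt : cnt P (Icc (-σ) 0) = A.card := by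
    rw [hA]
    unfold cnt
    congr!
  have hAle : A ≤ P.roots := Multiset.filter_le _ _
  obtain ⟨q1, hq1⟩ : ∃ q1 : ℝ[X], (A.map fun a => X - C a).prod * q1 = P := by
    obtain ⟨q1, hq1⟩ := (Multiset.prod_X_sub_C_dvd_iff_le_roots hP A).2 hAle
    exact ⟨q1, hq1.symm⟩
  have hq1ne : q1 ≠ 0 := by
    rintro rfl
    rw [mul_zero] at hq1
    exact hP hq1.symm
  have hmon : ((A.map fun a => X - C a).prod : ℝ[X]).Monic := monic_multiset_prod_of_monic _ _
    fun a _ => monic_X_sub_C a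
  have hdegq : q1.natDegree + A.card = d := by
    rw [← hdeg, ← hq1, hmon.natDegree_mul' hq1ne, natDegree_multiset_prod_X_sub_C_eq_card]
    ring
  set c := (q1.map (algebraMap ℝ ℂ)).roots.map Complex.re with hc
  have hccard : c.card = q1.natDegree := by
    rw [hc, Multiset.card_map, IsAlgClosed.card_roots_eq_natDegree, natDegree_map]
  have hcX : ∀ a ∈ c, |a| ≤ Rb := by
    intro a ha
    obtain ⟨z, hz, rfl⟩ := Multiset.mem_map.1 ha
    refine (Complex.abs_re_le_norm z).trans (hX z ?_)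
    have h1 : aeval z q1 = 0 := by
      rw [aeval_eq_map]
      exact isRoot_of_mem_roots hz
    rw [← hq1, map_mul, h1, mul_zero]
  have hrootR : ∀ p, P.eval p = 0 → |p| ≤ Rb := by
    intro p hp
    have := hX (p : ℂ) (by rw [aeval_coe, hp]; simp)
    simpa using this
  set N := (q1.natDegree : ℝ) with hNdef
  have hN0 : 0 ≤ N := Nat.cast_nonneg _
  have hNeq : (d : ℝ) - cnt P (Icc (-σ) 0) = N := by
    rw [hcnt, hNdef, ← hdegq]
    push_cast
    ring
  rw [hNeq] at hNσ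
  -- size of β
  set w := √(d : ℝ) with hw
  have hw2 : w ^ 2 = d := Real.sq_sqrt hd0.le
  have hw1 : 1 ≤ w := by rw [hw, Real.one_le_sqrt]; exact hd1
  have hw0 : 0 < w := by linarith
  have hβw : β ≤ 7 / 4 * w := by
    refine le_of_sq_le_sq ?_ (by positivity)
    calc β ^ 2 ≤ 3 * d := hβ2
      _ ≤ (7 / 4 * w) ^ 2 := by rw [mul_pow, hw2]; linarith
  have hℓw : 3 / 14 ≤ ℓ / 2 * w := by
    have h5 := Real.pi_gt_three
    have h6 : ℓ / 2 * w = Real.pi * w / (8 * β) := by rw [hℓ]; field_simp; ring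
    rw [h6, div_le_div_iff₀ (by norm_num) (by positivity)]
    nlinarith
  have hσw : 3 / 14 ≤ σ * w := hℓw.trans (mul_le_mul_of_nonneg_right hσ1.le hw0.le)
  -- the parameter s
  set s := (d : ℝ) / (8 * σ) with hs
  have hs0 : 0 < s := by positivity
  have hlog : 2 + 4 * Real.log (1 + 2 * Rb * s) ≤ Λ := by
    refine le_trans ?_ hΛ
    have e1 : s ≤ (d : ℝ) ^ 2 := by
      rw [hs, div_le_iff₀ (by positivity)]
      have : (1 : ℝ) ≤ 8 * σ * w := by linarith
      calc (d : ℝ) = d * 1 := (mul_one _).symm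
        _ ≤ d * (8 * σ * w) := mul_le_mul_of_nonneg_left this hd0.le
        _ ≤ d * (8 * σ * d) := by
            have : w ≤ d := by rw [← hw2]; nlinarith
            gcongr
        _ = (d : ℝ) ^ 2 * (8 * σ) := by ring
    have e2 : 0 < 1 + 2 * Rb * s := by positivity
    have := Real.log_le_log e2 (show 1 + 2 * Rb * s ≤ 1 + 2 * Rb * d ^ 2 by gcongr)
    linarith
  have hΛ2 : 2 ≤ Λ := by
    have : 0 ≤ Real.log (1 + 2 * Rb * d ^ 2) := Real.log_nonneg (by
      have : 0 ≤ 2 * Rb * (d : ℝ) ^ 2 := by positivity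
      linarith)
    linarith
  have hm := markov c Rb s hs0 hcX
  -- there is a good point
  have hgood : ∃ x, x1 < x ∧ x < x1 + ℓ / 2 ∧ (c.map fun a => 1 / |x - a|).sum ≤ s := by
    by_contra hcon
    push Not at hcon
    have hsub : Ioo x1 (x1 + ℓ / 2) ⊆
        {x : ℝ | x ∈ Icc (-Rb) Rb ∧ s < (c.map fun a => 1 / |x - a|).sum} := by
      intro x hx
      refine ⟨?_, hcon x hx.1 hx.2⟩
      have e1 := abs_le.1 (hrootR p hPp)
      have e2 := abs_le.1 (hrootR q hPq)
      exact ⟨by linarith [e1.1, hx.1], by linarith [e2.2, hx.2]⟩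
    have e3 := (measure_mono hsub).trans hm
    rw [Real.volume_Ioo, hccard, ← hNdef] at e3
    have e5 : 0 ≤ N / s * (2 + 4 * Real.log (1 + 2 * Rb * s)) := by
      have : 0 ≤ Real.log (1 + 2 * Rb * s) := Real.log_nonneg (by
        have : 0 ≤ 2 * Rb * s := by positivity
        linarith)
      positivity
    rw [ENNReal.ofReal_le_ofReal_iff e5] at e3
    have e6 : N / s * (2 + 4 * Real.log (1 + 2 * Rb * s)) ≤ N / s * Λ :=
      mul_le_mul_of_nonneg_left hlog (by positivity)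
    have e7 : N / s * Λ = 8 * (N * σ * Λ) / d := by
      rw [hs]
      field_simp
    have e8 : 8 * (N * σ * Λ) / d ≤ 8 * (w / 40) / d := by gcongr
    have e9 : 8 * (w / 40) / (d : ℝ) * w = 1 / 5 := by
      rw [← hw2]
      field_simp
      norm_num
    have e10 : x1 + ℓ / 2 - x1 ≤ 8 * (w / 40) / d := by linarith
    have e11 := mul_le_mul_of_nonneg_right e10 hw0.le
    rw [e9] at e11
    have e12 : (x1 + ℓ / 2 - x1) * w = ℓ / 2 * w := by ring
    rw [e12] at e11
    linarith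
  obtain ⟨x, hx1, hx2, hxs⟩ := hgood
  have hPx : P.eval x ≠ 0 := hno x (by linarith) (by linarith)
  have hsplit := logder_sub P q1 A hq1 x hPx
  have hqx : q1.eval x ≠ 0 := by
    intro h
    apply hPx
    rw [← hq1, eval_mul, h, mul_zero]
  have hb := (abs_le.1 ((logder_bound q1 x hqx).trans hxs)).2
  -- the sum over A
  have hsumA : (A.map fun t => 1 / (x - t)).sum ≤ -((A.card : ℝ) / (2 * σ)) := by
    have e1 : ∀ t ∈ A, 1 / (x - t) ≤ -(1 / (2 * σ)) := by
      intro t ht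
      rw [hA, Multiset.mem_filter, mem_roots hP] at ht
      obtain ⟨ht1, ht2, ht3⟩ := ht
      have e2 : q ≤ t := by
        by_contra hcon
        push Not at hcon
        refine hno t ?_ hcon ht1
        have : -σ = x1 + ℓ / 2 := by rw [hσ]; ring
        linarith
      have e3 : 0 < t - x := by linarith
      have e4 : t - x ≤ 2 * σ := by linarith
      have e5 : 1 / (x - t) = -(1 / (t - x)) := by
        rw [← neg_sub t x, div_neg]
      rw [e5, neg_le_neg_iff]
      exact one_div_le_one_div_of_le e3 e4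
    have e2 : (A.map fun t => 1 / (x - t)).sum ≤ (A.map fun _ => -(1 / (2 * σ))).sum :=
      Multiset.sum_map_le_sum_map _ _ e1
    refine e2.trans (le_of_eq ?_)
    rw [Multiset.map_const', Multiset.sum_replicate, nsmul_eq_mul]
    ring
  have hAcard : (A.card : ℝ) = d - N := by
    rw [hNdef, ← hdegq]
    push_cast
    ring
  -- N is at most d / 2
  have hNd : N ≤ d / 2 := by
    have e1 : N * (σ * w) * 2 ≤ w ^ 2 / 40 := by
      calc N * (σ * w) * 2 ≤ N * (σ * w) * Λ := by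
            apply mul_le_mul_of_nonneg_left hΛ2
            positivity
        _ = N * σ * Λ * w := by ring
        _ ≤ w / 40 * w := mul_le_mul_of_nonneg_right hNσ hw0.le
        _ = w ^ 2 / 40 := by ring
    have e2 : N * (3 / 14) ≤ N * (σ * w) := mul_le_mul_of_nonneg_left hσw hN0
    rw [hw2] at e1
    linarith
  have hfin : (derivative P).eval x / P.eval x ≤ -(d / (8 * σ)) := by
    rw [hsplit]
    have e1 : (A.card : ℝ) / (2 * σ) ≥ (d / 2) / (2 * σ) := by
      rw [hAcard]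
      gcongr
      linarith
    have e2 : (d : ℝ) / 2 / (2 * σ) = 2 * (d / (8 * σ)) := by
      field_simp
      ring
    linarith
  have hfin2 : 5 * (d : ℝ) ≤ d / (8 * σ) := by
    rw [le_div_iff₀ (by positivity)]
    have : 5 * (8 * σ) ≤ 1 := by linarith
    calc 5 * (d : ℝ) * (8 * σ) = d * (5 * (8 * σ)) := by ring
      _ ≤ d * 1 := mul_le_mul_of_nonneg_left this hd0.le
      _ = d := mul_one _
  have h5 := (h3 x hx1 (by linarith)).1
  have h6 : β ≤ 7 / 4 * d := hβw.trans (by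
    have : w ≤ d := by rw [← hw2]; nlinarith
    linarith)
  linarith

/-- one near step loses at most four zeros in every `[-ρ, 0]` -/
theorem near_step (d : ℕ) (α β r Rb Λ : ℝ) (P : ℝ[X]) (hP : P ≠ 0) (hdeg : P.natDegree = d)
    (hd : 1 ≤ d) (hα : -(2 * (d : ℝ)) ≤ α) (hβ : 0 < β) (hβ2 : β ^ 2 ≤ 3 * d) (hr0 : 0 < r)
    (hr : r ≤ 1 / 40) (hX : ∀ z : ℂ, aeval z P = 0 → ‖z‖ ≤ Rb) (hR : 0 ≤ Rb)
    (hΛ : 2 + 4 * Real.log (1 + 2 * Rb * d ^ 2) ≤ Λ)
    (hN : ∀ σ, 0 < σ → σ ≤ r → ((d : ℝ) - cnt P (Icc (-σ) 0)) * σ * Λ ≤ √d / 40)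
    (ρ : ℝ) (hρr : ρ ≤ r) :
    cnt P (Icc (-ρ) 0) ≤ cnt (TT α β P) (Icc (-ρ) 0) + 4 := by
  have hαβ : α ^ 2 + β ^ 2 ≠ 0 := by positivity
  refine gap_local α β P hP (Pool.Agent.Zk6.JD.TT_ne_zero α β hαβ hP) (-ρ) 0 fun p q h1 h2 => ?_
  exact no_bad d α β r Rb Λ P hP hdeg hd hα hβ hβ2 hr0 hr hX hR hΛ hN p q (by linarith) h2

end Pool.Agent.Zk17.JQ
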