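import Pool.Agent.Zk17.JQ.B
import Pool.Agent.Zk6.JD8

set_option autoImplicit false

/-!
# Jensen polynomials, square root bound, step 3: the far zeros
-/

namespace Pool.Agent.Zk17.JQ

open Polynomial Set MeasureTheory
open Pool.Agent.TH99.RJ (cnt cnt_union cnt_mono cnt_univ nonreal nonreal_eq aeval_eq_map rop rop_mul
  rop_C rop_lin rop_quad rop_pow natDegree_rop_pow natDegree_rop_pow_le leadingCoeff_rop_pow
  nonreal_eq_zero aeval_rop_pow splits_of_real)
open Pool.Agent.Zk6.JD (TT rts rts_quad rts_lin fac_cases aeval_coe mem_rts par_facts)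
open Pool.Agent.H24R2.JP (Par)

/-- induction over the quadratic factors -/
theorem quad_induction (C0 : ℝ[X] → Prop) (hC : ∀ c : ℝ, c ≠ 0 → C0 (C c))
    (hq : ∀ (a : ℂ) (g : ℝ[X]), a.im ≠ 0 → g.coeff 0 ≠ 0 →
      (∀ b : ℂ, aeval b g = 0 → aeval b ((X ^ 2 - C (2 * a.re) * X + C (‖a‖ ^ 2)) * g) = 0) →
      C0 g → C0 ((X ^ 2 - C (2 * a.re) * X + C (‖a‖ ^ 2)) * g)) :
    ∀ (N : ℕ) (f : ℝ[X]), f.natDegree ≤ N → f.coeff 0 ≠ 0 → (∀ a : ℂ, aeval a f = 0 → a.im ≠ 0) →
      C0 f := by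
  intro N
  induction N using Nat.strong_induction_on with
  | _ N ih =>
    intro f hf h0 him
    by_cases hd : f.natDegree = 0
    · obtain ⟨c, rfl⟩ := natDegree_eq_zero.1 hd
      exact hC c (by simpa using h0)
    have hdeg : (f.map (algebraMap ℝ ℂ)).degree ≠ 0 := by
      rw [degree_map]
      intro h
      have := natDegree_eq_zero_iff_degree_le_zero.2 h.le
      omega
    obtain ⟨a, ha⟩ := IsAlgClosed.exists_root _ hdeg
    have ha' : aeval a f = 0 := by rw [aeval_eq_map]; exact ha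
    rcases fac_cases f h0 a ha' with ⟨h1, -⟩ | ⟨h1, g, hg, hg0, hgd⟩
    · exact absurd h1 (him a ha')
    have hz : ∀ b : ℂ, aeval b g = 0 →
        aeval b ((X ^ 2 - C (2 * a.re) * X + C (‖a‖ ^ 2)) * g) = 0 := by
      intro b hb
      rw [map_mul, hb, mul_zero]
    have h2 := ih g.natDegree (by omega) g le_rfl hg0 (fun b hb => him b (by rw [hg]; exact hz b hb))
    rw [hg]
    exact hq a g h1 hg0 hz h2

/-- logarithmic sum over the zeros -/
noncomputable def Ls (y : ℝ) (f : ℝ[X]) : ℝ := ((rts f).map fun a => Real.log (1 + y / ‖a‖)).sum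

theorem Ls_quad (y : ℝ) (a : ℂ) (g : ℝ[X]) (hg : g ≠ 0) :
    Ls y ((X ^ 2 - C (2 * a.re) * X + C (‖a‖ ^ 2)) * g) =
      Real.log (1 + y / ‖a‖) + (Real.log (1 + y / ‖a‖) + Ls y g) := by
  unfold Ls
  rw [rts_quad _ _ hg, Multiset.map_cons, Multiset.sum_cons, Multiset.map_cons, Multiset.sum_cons,
    RCLike.norm_conj]

theorem norm_pos_of_im {a : ℂ} (h : a.im ≠ 0) : 0 < ‖a‖ := by
  rw [norm_pos_iff]
  rintro rfl
  simp at h

theorem norm_sq_eq (a : ℂ) : ‖a‖ ^ 2 = a.re ^ 2 + a.im ^ 2 := by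
  rw [← Complex.normSq_eq_norm_sq, Complex.normSq_apply]
  ring

theorem quad_coeff (a : ℂ) (g : ℝ[X]) :
    ((X ^ 2 - C (2 * a.re) * X + C (‖a‖ ^ 2)) * g).coeff 0 = ‖a‖ ^ 2 * g.coeff 0 := by
  rw [mul_coeff_zero, coeff_add, coeff_C_zero, coeff_sub, coeff_C_mul, coeff_X_zero, coeff_X_pow]
  simp

/-- the coefficients have the sign of the constant term -/
theorem coeff_sign (f : ℝ[X]) (h0 : f.coeff 0 ≠ 0) (him : ∀ a : ℂ, aeval a f = 0 → a.im ≠ 0)
    (hre : ∀ a : ℂ, aeval a f = 0 → a.re ≤ 0) : ∀ j, 0 ≤ f.coeff j / f.coeff 0 := by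
  refine quad_induction (fun f => (∀ a : ℂ, aeval a f = 0 → a.re ≤ 0) →
    ∀ j, 0 ≤ f.coeff j / f.coeff 0) ?_ ?_ f.natDegree f le_rfl h0 him hre
  · intro c hc _ j
    rcases Nat.eq_zero_or_pos j with hj | hj
    · rw [hj, coeff_C_zero, div_self hc]; norm_num
    · rw [coeff_C, if_neg (by omega), zero_div]
  · intro a g ha hg0 hz ih hre j
    have h1 := ih fun b hb => hre b (hz b hb)
    have ha1 : a.re ≤ 0 := by
      apply hre a
      rw [map_mul]
      have : aeval a (X ^ 2 - C (2 * a.re) * X + C (‖a‖ ^ 2) : ℝ[X]) = 0 := by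
        rw [aeval_eq_map, Pool.Agent.Zk6.JD.quad_map]
        simp
      rw [this, zero_mul]
    have hpos := norm_pos_of_im ha
    have h2 := quad_coeff a g
    have h3 : ∀ j, ((X ^ 2 - C (2 * a.re) * X + C (‖a‖ ^ 2)) * g).coeff j =
        (X ^ 2 * g).coeff j + (-(2 * a.re)) * (X * g).coeff j + ‖a‖ ^ 2 * g.coeff j := by
      intro j
      have : (X ^ 2 - C (2 * a.re) * X + C (‖a‖ ^ 2)) * g =
          X ^ 2 * g + C (-(2 * a.re)) * (X * g) + C (‖a‖ ^ 2) * g := by
        rw [C_neg]; ring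
      rw [this, coeff_add, coeff_add, coeff_C_mul, coeff_C_mul]
    rw [h2, h3, ← div_div, add_div, add_div, add_div, add_div]
    have hX : 0 ≤ (X * g).coeff j / g.coeff 0 := by
      rcases j with _ | j
      · simp
      · rw [coeff_X_mul]; exact h1 j
    have hX2 : 0 ≤ (X ^ 2 * g).coeff j / g.coeff 0 := by
      rcases j with _ | _ | j
      · simp [pow_two]
      · have : (X ^ 2 * g).coeff (0 + 1) = 0 := by
          rw [pow_two, mul_assoc, coeff_X_mul]
          simp
        rw [this]; simp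
      · have : (X ^ 2 * g).coeff (j + 1 + 1) = g.coeff j := by
          rw [pow_two, mul_assoc, coeff_X_mul, coeff_X_mul]
        rw [this]; exact h1 j
    have e1 : (X ^ 2 * g).coeff j / ‖a‖ ^ 2 / g.coeff 0 =
        (X ^ 2 * g).coeff j / g.coeff 0 / ‖a‖ ^ 2 := by ring
    have e2 : -(2 * a.re) * (X * g).coeff j / ‖a‖ ^ 2 / g.coeff 0 =
        -(2 * a.re) * ((X * g).coeff j / g.coeff 0) / ‖a‖ ^ 2 := by ring
    have e3 : ‖a‖ ^ 2 * g.coeff j / ‖a‖ ^ 2 / g.coeff 0 = g.coeff j / g.coeff 0 := by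
      field_simp
    rw [e1, e2, e3]
    have := h1 j
    have h4 : 0 ≤ -(2 * a.re) := by linarith
    positivity

/-- upper bound of the values on the positive axis -/
theorem eval_upper (f : ℝ[X]) (h0 : f.coeff 0 ≠ 0) (him : ∀ a : ℂ, aeval a f = 0 → a.im ≠ 0)
    (y : ℝ) (hy : 0 ≤ y) : f.eval y / f.coeff 0 ≤ Real.exp (Ls y f) ∧ 0 ≤ f.eval y / f.coeff 0 := by
  refine quad_induction (fun f => f.eval y / f.coeff 0 ≤ Real.exp (Ls y f) ∧
    0 ≤ f.eval y / f.coeff 0) ?_ ?_ f.natDegree f le_rfl h0 him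
  · intro c hc
    have : Ls y (C c) = 0 := by
      unfold Ls rts
      simp
    rw [this, eval_C, coeff_C_zero, div_self hc, Real.exp_zero]
    norm_num
  · intro a g ha hg0 hz ih
    obtain ⟨h1, h2⟩ := ih
    have hgne : g ≠ 0 := by rintro rfl; simp at hg0
    have hpos := norm_pos_of_im ha
    have e0 := quad_coeff a g
    have e1 : ((X ^ 2 - C (2 * a.re) * X + C (‖a‖ ^ 2)) * g).eval y =
        (y ^ 2 - 2 * a.re * y + ‖a‖ ^ 2) * g.eval y := by
      simp
    have e2 : (y ^ 2 - 2 * a.re * y + ‖a‖ ^ 2) * g.eval y / (‖a‖ ^ 2 * g.coeff 0) =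
        (y ^ 2 - 2 * a.re * y + ‖a‖ ^ 2) / ‖a‖ ^ 2 * (g.eval y / g.coeff 0) := by
      field_simp
    have hre := Complex.abs_re_le_norm a
    have hre1 := (abs_le.1 hre).1
    have hre2 := (abs_le.1 hre).2
    have e3 : 0 ≤ (y ^ 2 - 2 * a.re * y + ‖a‖ ^ 2) / ‖a‖ ^ 2 := by
      refine div_nonneg ?_ (by positivity)
      nlinarith [sq_nonneg (y - ‖a‖)]
    have e4 : (y ^ 2 - 2 * a.re * y + ‖a‖ ^ 2) / ‖a‖ ^ 2 ≤ (1 + y / ‖a‖) ^ 2 := by
      rw [div_le_iff₀ (by positivity)]
      have : (1 + y / ‖a‖) ^ 2 * ‖a‖ ^ 2 = (‖a‖ + y) ^ 2 := by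
        rw [← mul_pow]
        congr 1
        field_simp
      rw [this]
      nlinarith
    have e5 : 0 < 1 + y / ‖a‖ := by positivity
    rw [e0, e1, e2, Ls_quad y a g hgne]
    constructor
    · have e6 : Real.exp (Real.log (1 + y / ‖a‖) + (Real.log (1 + y / ‖a‖) + Ls y g)) =
          (1 + y / ‖a‖) ^ 2 * Real.exp (Ls y g) := by
        rw [Real.exp_add, Real.exp_add, Real.exp_log e5]
        ring
      rw [e6]
      exact mul_le_mul e4 h1 h2 (by positivity)
    · exact mul_nonneg e3 h2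

theorem prod_lower (ρ : ℝ) (hρ : 0 < ρ) (s : Multiset ℝ) (hs : ∀ x ∈ s, x ≤ 0) (k : ℕ)
    (hk : s.card = (s.filter (· ∈ Icc (-ρ) 0)).card + k) :
    ρ ^ s.card * 2 ^ k ≤ (s.map fun x => ρ - x).prod := by
  classical
  induction s using Multiset.induction_on generalizing k with
  | empty =>
    simp at hk
    rw [← hk]
    simp
  | cons x s ih =>
    have hx := hs x (Multiset.mem_cons_self x s)
    have hs' : ∀ y ∈ s, y ≤ 0 := fun y hy => hs y (Multiset.mem_cons_of_mem hy)
    rw [Multiset.map_cons, Multiset.prod_cons, Multiset.card_cons]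
    have hle : (s.filter (· ∈ Icc (-ρ) 0)).card ≤ s.card :=
      Multiset.card_le_card (Multiset.filter_le _ _)
    by_cases hin : x ∈ Icc (-ρ) 0
    · have e : (x ::ₘ s).filter (fun x => x ∈ Icc (-ρ) 0) = x ::ₘ s.filter (fun x => x ∈ Icc (-ρ) 0) :=
        Multiset.filter_cons_of_pos _ hin
      rw [e, Multiset.card_cons, Multiset.card_cons] at hk
      have h1 := ih hs' k (by omega)
      calc ρ ^ (s.card + 1) * 2 ^ k = ρ * (ρ ^ s.card * 2 ^ k) := by ring
        _ ≤ (ρ - x) * (s.map fun x => ρ - x).prod :=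
          mul_le_mul (by linarith) h1 (by positivity) (by linarith)
    · have e : (x ::ₘ s).filter (fun x => x ∈ Icc (-ρ) 0) = s.filter (fun x => x ∈ Icc (-ρ) 0) :=
        Multiset.filter_cons_of_neg _ hin
      rw [e, Multiset.card_cons] at hk
      obtain ⟨m, rfl⟩ : ∃ m, k = m + 1 := ⟨k - 1, by omega⟩
      have h1 := ih hs' m (by omega)
      have h2 : x < -ρ := by
        by_contra hcon
        push Not at hcon
        exact hin ⟨hcon, hx⟩
      calc ρ ^ (s.card + 1) * 2 ^ (m + 1) = (2 * ρ) * (ρ ^ s.card * 2 ^ m) := by ring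
        _ ≤ (ρ - x) * (s.map fun x => ρ - x).prod :=
          mul_le_mul (by linarith) h1 (by positivity) (by linarith)

/-- **Far zeros**: `f(D) X ^ d` is real-rooted and few zeros are outside `[-ρ, 0]`. -/
theorem far (f : ℝ[X]) (d : ℕ) (h0 : f.coeff 0 ≠ 0)
    (him : ∀ a : ℂ, aeval a f = 0 → a.im ≠ 0) (hre : ∀ a : ℂ, aeval a f = 0 → a.re ≤ 0)
    (hs : ∀ a : ℂ, aeval a f = 0 → (d : ℝ) * a.im ^ 2 ≤ ‖a‖ ^ 2) (ρ : ℝ) (hρ : 0 < ρ) :
    (d : ℝ) - cnt (rop f (X ^ d)) (Icc (-ρ) 0) ≤ 2 * Ls (d / ρ) f := by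
  classical
  set P := rop f (X ^ d) with hP
  have hreal : ∀ z : ℂ, aeval z P = 0 → z.im = 0 := by
    intro z hz
    rw [hP, aeval_rop_pow] at hz
    exact Pool.Agent.H24R2.JP.sector Pool.Agent.H24R2.JP.chasse f d h0 hs z hz
  have hsp := splits_of_real P hreal
  have hcard : P.roots.card = d := by
    rw [← hsp.natDegree_eq_card_roots, hP, natDegree_rop_pow f d h0]
  have hP0 : P ≠ 0 := by
    intro h
    rw [h] at hP
    have h1 := leadingCoeff_rop_pow f d h0
    rw [← hP, leadingCoeff_zero] at h1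
    exact h0 h1.symm
  have hsign := coeff_sign f h0 him hre
  -- positive values
  have hval : ∀ x : ℝ, 0 < x → x ^ d ≤ P.eval x / f.coeff 0 ∧
      P.eval x / f.coeff 0 ≤ x ^ d * (f.eval (d / x) / f.coeff 0) := by
    intro x hx
    have e1 : P.eval x / f.coeff 0 = ∑ j ∈ Finset.range (d + 1),
        ((d.choose j : ℝ) * ((j.factorial : ℝ) * (f.coeff j / f.coeff 0))) * x ^ (d - j) := by
      rw [hP, rop_pow, eval_finsetSum, Finset.sum_div]
      refine Finset.sum_congr rfl fun j _ => ?_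
      rw [eval_mul, eval_C, eval_pow, eval_X]
      ring
    constructor
    · rw [e1]
      have e2 := Finset.single_le_sum (f := fun j =>
        ((d.choose j : ℝ) * ((j.factorial : ℝ) * (f.coeff j / f.coeff 0))) * x ^ (d - j))
        (s := Finset.range (d + 1)) (a := 0) (by
          intro j _
          have := hsign j
          positivity) (by simp)
      simpa [div_self h0] using e2
    · rw [e1]
      have e3 : f.eval (d / x) / f.coeff 0 = ∑ j ∈ Finset.range (max (f.natDegree + 1) (d + 1)),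
          (f.coeff j / f.coeff 0) * (d / x) ^ j := by
        rw [eval_eq_sum_range' (lt_of_lt_of_le (Nat.lt_succ_self _) (le_max_left _ (d + 1))),
          Finset.sum_div]
        refine Finset.sum_congr rfl fun j _ => ?_
        ring
      rw [e3, Finset.mul_sum]
      refine le_trans (Finset.sum_le_sum (g := fun j => x ^ d * ((f.coeff j / f.coeff 0) * (d / x) ^ j))
        fun j hj => ?_) (Finset.sum_le_sum_of_subset_of_nonneg
          (Finset.range_mono (le_max_right _ _)) fun j _ _ => ?_)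
      · have hj' : j ≤ d := Nat.lt_succ_iff.1 (Finset.mem_range.1 hj)
        have e4 : (d.choose j : ℝ) * (j.factorial : ℝ) ≤ (d : ℝ) ^ j := by
          have h5 : d.choose j * j.factorial ≤ d ^ j := by
            rw [mul_comm, ← Nat.descFactorial_eq_factorial_mul_choose]
            exact Nat.descFactorial_le_pow d j
          exact_mod_cast h5
        have e5 : x ^ d = x ^ (d - j) * x ^ j := by rw [← pow_add]; congr 1; omega
        have e6 := hsign j
        calc (d.choose j : ℝ) * ((j.factorial : ℝ) * (f.coeff j / f.coeff 0)) * x ^ (d - j)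
            = ((d.choose j : ℝ) * (j.factorial : ℝ)) * ((f.coeff j / f.coeff 0) * x ^ (d - j)) := by
              ring
          _ ≤ (d : ℝ) ^ j * ((f.coeff j / f.coeff 0) * x ^ (d - j)) :=
              mul_le_mul_of_nonneg_right e4 (by positivity)
          _ = x ^ d * ((f.coeff j / f.coeff 0) * (d / x) ^ j) := by
              rw [e5, div_pow]
              field_simp
      · have e6 := hsign j
        positivity
  have hneg : ∀ x ∈ P.roots, x ≤ 0 := by
    intro x hx
    by_contra hcon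
    push Not at hcon
    have h1 := (hval x hcon).1
    have h2 : P.eval x = 0 := isRoot_of_mem_roots hx
    rw [h2, zero_div] at h1
    have : 0 < x ^ d := by positivity
    linarith
  have hcnt : cnt P (Icc (-ρ) 0) = (P.roots.filter (· ∈ Icc (-ρ) 0)).card := by
    unfold cnt
    congr!
  have hle : (P.roots.filter (· ∈ Icc (-ρ) 0)).card ≤ d := by
    rw [← hcard]
    exact Multiset.card_le_card (Multiset.filter_le _ _)
  obtain ⟨k, hk⟩ : ∃ k, d = (P.roots.filter (· ∈ Icc (-ρ) 0)).card + k :=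
    ⟨d - (P.roots.filter (· ∈ Icc (-ρ) 0)).card, by omega⟩
  have h1 := prod_lower ρ hρ P.roots hneg k (by rw [hcard]; exact hk)
  have h2 : P.eval ρ / f.coeff 0 = (P.roots.map fun x => ρ - x).prod := by
    have e1 : P = C P.leadingCoeff * (P.roots.map fun a => X - C a).prod :=
      hsp.eq_prod_roots
    have e2 : P.leadingCoeff = f.coeff 0 := leadingCoeff_rop_pow f d h0
    conv_lhs => rw [e1]
    rw [eval_mul, eval_C, e2, mul_div_cancel_left₀ _ h0, eval_multiset_prod, Multiset.map_map]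
    congr 1
    refine Multiset.map_congr rfl fun x _ => ?_
    simp
  have h3 := (hval ρ hρ).2
  have h4 := (eval_upper f h0 him (d / ρ) (by positivity)).1
  rw [h2] at h3
  rw [hcard] at h1
  have h5 : ρ ^ d * 2 ^ k ≤ ρ ^ d * Real.exp (Ls (d / ρ) f) :=
    h1.trans (h3.trans (mul_le_mul_of_nonneg_left h4 (by positivity)))
  have h6 : (2 : ℝ) ^ k ≤ Real.exp (Ls (d / ρ) f) := le_of_mul_le_mul_left h5 (by positivity)
  have h7 : (k : ℝ) * Real.log 2 ≤ Ls (d / ρ) f := by
    have := Real.log_le_log (by positivity) h6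
    rwa [Real.log_pow, Real.log_exp] at this
  have h8 : (d : ℝ) - cnt P (Icc (-ρ) 0) = k := by
    rw [hcnt]
    have : (d : ℝ) = ((P.roots.filter (· ∈ Icc (-ρ) 0)).card : ℝ) + k := by exact_mod_cast hk
    linarith
  rw [h8]
  have h9 : (1 : ℝ) / 2 ≤ Real.log 2 := by
    have := Real.log_two_gt_d9
    linarith
  have h10 : (0 : ℝ) ≤ k := Nat.cast_nonneg _
  nlinarith

end Pool.Agent.Zk17.JQ
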