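import Pool.Agent.Zk17.JQ.C

set_option autoImplicit false

/-!
# Jensen polynomials, square root bound, step 4: the main theorem for polynomials
-/

namespace Pool.Agent.Zk17.JQ

open Polynomial Set MeasureTheory
open Pool.Agent.TH99.RJ (cnt cnt_union cnt_mono cnt_univ nonreal nonreal_eq aeval_eq_map rop rop_mul
  rop_C rop_lin rop_quad rop_pow natDegree_rop_pow natDegree_rop_pow_le leadingCoeff_rop_pow
  nonreal_eq_zero aeval_rop_pow splits_of_real par_im)
open Pool.Agent.Zk6.JD (TT rts rts_quad rts_lin fac_cases aeval_coe mem_rts par_facts nr nr_quad W1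
  W1_nonneg S1 S1_nonneg root_bound)
open Pool.Agent.H24R2.JP (Par)

open Classical in
/-- the sum over the very far non-real zeros -/
noncomputable def T1 (D : ℝ) (f : ℝ[X]) : ℝ :=
  (((rts f).filter fun a => a.im ≠ 0 ∧ D < ‖a‖).map fun a => 1 / ‖a‖).sum

theorem T1_nonneg (D : ℝ) (f : ℝ[X]) : 0 ≤ T1 D f := by
  unfold T1
  refine Multiset.sum_nonneg fun y hy => ?_
  obtain ⟨a, -, rfl⟩ := Multiset.mem_map.1 hy
  positivity

theorem T1_quad_near (D : ℝ) (a : ℂ) (g : ℝ[X]) (hg : g ≠ 0) (haD : ‖a‖ ≤ D) :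
    T1 D ((X ^ 2 - C (2 * a.re) * X + C (‖a‖ ^ 2)) * g) = T1 D g := by
  classical
  unfold T1
  rw [rts_quad a g hg, Multiset.filter_cons_of_neg, Multiset.filter_cons_of_neg]
  · rw [RCLike.norm_conj]
    exact fun h => absurd h.2 (not_lt.2 haD)
  · exact fun h => absurd h.2 (not_lt.2 haD)

theorem W1_quad (D : ℝ) (a : ℂ) (g : ℝ[X]) (hg : g ≠ 0) (him : a.im ≠ 0) (haD : ‖a‖ ≤ D) :
    W1 D ((X ^ 2 - C (2 * a.re) * X + C (‖a‖ ^ 2)) * g) = 1 / √‖a‖ + (1 / √‖a‖ + W1 D g) := by
  unfold W1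
  rw [nr_quad D a g hg him haD, Multiset.map_cons, Multiset.sum_cons,
    Multiset.map_cons, Multiset.sum_cons, RCLike.norm_conj]

/-- the logarithmic sum in terms of `W1` and `T1` -/
theorem Ls_le (D y : ℝ) (hy : 0 ≤ y) (f : ℝ[X]) (him : ∀ a ∈ rts f, a.im ≠ 0) :
    Ls y f ≤ √y * W1 D f + y * T1 D f := by
  classical
  unfold Ls W1 T1 nr
  have key : ∀ s : Multiset ℂ, (∀ a ∈ s, a.im ≠ 0) →
      (s.map fun a => Real.log (1 + y / ‖a‖)).sum ≤
      √y * ((s.filter fun a => a.im ≠ 0 ∧ ‖a‖ ≤ D).map fun a => 1 / √‖a‖).sum +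
      y * ((s.filter fun a => a.im ≠ 0 ∧ D < ‖a‖).map fun a => 1 / ‖a‖).sum := by
    intro s
    induction s using Multiset.induction_on with
    | empty => intro _; simp
    | cons a s ih =>
      intro hs
      have h1 := ih fun b hb => hs b (Multiset.mem_cons_of_mem hb)
      have ha := hs a (Multiset.mem_cons_self a s)
      have hpos := norm_pos_of_im ha
      rw [Multiset.map_cons, Multiset.sum_cons]
      have hz : 0 ≤ y / ‖a‖ := by positivity
      by_cases hD : ‖a‖ ≤ D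
      · have e1 : (a ::ₘ s).filter (fun a => a.im ≠ 0 ∧ ‖a‖ ≤ D) =
            a ::ₘ s.filter (fun a => a.im ≠ 0 ∧ ‖a‖ ≤ D) := Multiset.filter_cons_of_pos _ ⟨ha, hD⟩
        have e2 : (a ::ₘ s).filter (fun a => a.im ≠ 0 ∧ D < ‖a‖) =
            s.filter (fun a => a.im ≠ 0 ∧ D < ‖a‖) :=
          Multiset.filter_cons_of_neg _ fun h => absurd h.2 (not_lt.2 hD)
        rw [e1, e2, Multiset.map_cons, Multiset.sum_cons]
        have e3 : Real.log (1 + y / ‖a‖) ≤ √y * (1 / √‖a‖) := by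
          have e4 : √y * (1 / √‖a‖) = √(y / ‖a‖) := by
            rw [Real.sqrt_div hy]
            ring
          rw [e4]
          set u := √(y / ‖a‖) with hu
          have hu0 : 0 ≤ u := Real.sqrt_nonneg _
          have hu2 : y / ‖a‖ = u ^ 2 := (Real.sq_sqrt hz).symm
          rw [hu2]
          have e5 : 1 + u ^ 2 ≤ Real.exp u := by
            have h6 := Real.sum_le_exp_of_nonneg hu0 4
            simp only [Finset.sum_range_succ, Finset.sum_range_zero, Nat.factorial] at h6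
            norm_num at h6
            nlinarith [mul_nonneg hu0 (sq_nonneg (u - 3 / 2))]
          calc Real.log (1 + u ^ 2) ≤ Real.log (Real.exp u) :=
                Real.log_le_log (by positivity) e5
            _ = u := Real.log_exp u
        rw [mul_add]
        linarith
      · push Not at hD
        have e1 : (a ::ₘ s).filter (fun a => a.im ≠ 0 ∧ ‖a‖ ≤ D) =
            s.filter (fun a => a.im ≠ 0 ∧ ‖a‖ ≤ D) :=
          Multiset.filter_cons_of_neg _ fun h => absurd h.2 (not_le.2 hD)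
        have e2 : (a ::ₘ s).filter (fun a => a.im ≠ 0 ∧ D < ‖a‖) =
            a ::ₘ s.filter (fun a => a.im ≠ 0 ∧ D < ‖a‖) := Multiset.filter_cons_of_pos _ ⟨ha, hD⟩
        rw [e1, e2, Multiset.map_cons, Multiset.sum_cons]
        have e3 : Real.log (1 + y / ‖a‖) ≤ y * (1 / ‖a‖) := by
          have := Real.log_le_sub_one_of_pos (show 0 < 1 + y / ‖a‖ by positivity)
          calc Real.log (1 + y / ‖a‖) ≤ 1 + y / ‖a‖ - 1 := this
            _ = y * (1 / ‖a‖) := by ring
        rw [mul_add]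
        linarith
  have := key (rts f) him
  convert this using 2

/-- the number of near zeros -/
theorem card_nr (D d : ℝ) (hD : d ≤ D) (f : ℝ[X]) :
    ((nr d f).card : ℝ) ≤ √d * W1 D f := by
  classical
  unfold W1 nr
  have key : ∀ s : Multiset ℂ,
      (((s.filter fun a => a.im ≠ 0 ∧ ‖a‖ ≤ d).card : ℕ) : ℝ) ≤
      √d * ((s.filter fun a => a.im ≠ 0 ∧ ‖a‖ ≤ D).map fun a => 1 / √‖a‖).sum := by
    intro s
    induction s using Multiset.induction_on with
    | empty => simp
    | cons a s ih =>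
      by_cases h : a.im ≠ 0 ∧ ‖a‖ ≤ d
      · have h' : a.im ≠ 0 ∧ ‖a‖ ≤ D := ⟨h.1, h.2.trans hD⟩
        have e1 : (a ::ₘ s).filter (fun a => a.im ≠ 0 ∧ ‖a‖ ≤ d) =
            a ::ₘ s.filter (fun a => a.im ≠ 0 ∧ ‖a‖ ≤ d) := Multiset.filter_cons_of_pos _ h
        have e2 : (a ::ₘ s).filter (fun a => a.im ≠ 0 ∧ ‖a‖ ≤ D) =
            a ::ₘ s.filter (fun a => a.im ≠ 0 ∧ ‖a‖ ≤ D) := Multiset.filter_cons_of_pos _ h'
        rw [e1, e2, Multiset.map_cons, Multiset.sum_cons, Multiset.card_cons, mul_add]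
        push_cast
        have hpos := norm_pos_of_im h.1
        have e3 : 1 ≤ √d * (1 / √‖a‖) := by
          rw [mul_one_div, one_le_div (Real.sqrt_pos.2 hpos)]
          exact Real.sqrt_le_sqrt h.2
        linarith
      · have e1 : (a ::ₘ s).filter (fun a => a.im ≠ 0 ∧ ‖a‖ ≤ d) =
            s.filter (fun a => a.im ≠ 0 ∧ ‖a‖ ≤ d) := Multiset.filter_cons_of_neg _ h
        rw [e1]
        refine ih.trans (mul_le_mul_of_nonneg_left ?_ (Real.sqrt_nonneg _))
        by_cases h' : a.im ≠ 0 ∧ ‖a‖ ≤ D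
        · have e2 : (a ::ₘ s).filter (fun a => a.im ≠ 0 ∧ ‖a‖ ≤ D) =
              a ::ₘ s.filter (fun a => a.im ≠ 0 ∧ ‖a‖ ≤ D) := Multiset.filter_cons_of_pos _ h'
          rw [e2, Multiset.map_cons, Multiset.sum_cons]
          have : (0 : ℝ) ≤ 1 / √‖a‖ := by positivity
          linarith
        · have e2 : (a ::ₘ s).filter (fun a => a.im ≠ 0 ∧ ‖a‖ ≤ D) =
              s.filter (fun a => a.im ≠ 0 ∧ ‖a‖ ≤ D) := Multiset.filter_cons_of_neg _ h'
          rw [e2]
  have := key (rts f)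
  convert this using 2

theorem sqrt_scale (d σ : ℝ) (hd : 0 ≤ d) (hσ : 0 < σ) : √(d / σ) * σ = √(d * σ) := by
  have h1 : σ = √(σ ^ 2) := (Real.sqrt_sq hσ.le).symm
  conv_lhs => rw [h1]
  rw [← Real.sqrt_mul (by rw [Real.sqrt_sq hσ.le]; positivity), Real.sqrt_sq hσ.le]
  congr 1
  field_simp

/-- the invariant -/
theorem poly_aux (d : ℕ) (hd : 1 ≤ d) (D H Λ r W τ M : ℝ) (hD : 2 * (d : ℝ) ≤ D) (hH : 0 ≤ H)
    (hΛ : 2 + 4 * Real.log (1 + 2 * (d * H) * d ^ 2) ≤ Λ) (hr0 : 0 < r) (hr : r ≤ 1 / 40)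
    (hM : 0 ≤ M) (hW : 0 ≤ W) (hτ : 0 ≤ τ)
    (hcond : (2 * (√(d * r) * W + d * τ) + 2 * M * r) * Λ ≤ √d / 40) :
    ∀ (N : ℕ) (f : ℝ[X]), f.natDegree ≤ N → f.coeff 0 ≠ 0 →
    (∀ a : ℂ, aeval a f = 0 → a ∈ Par ∧ a.im ≠ 0) → S1 f ≤ H → W1 D f ≤ W → T1 D f ≤ τ →
    ((nr (2 * d) f).card : ℝ) ≤ M → ∀ ρ, 0 < ρ → ρ ≤ r →
    (d : ℝ) - cnt (rop f (X ^ d)) (Icc (-ρ) 0) ≤
      2 * (√(d / ρ) * W1 D f + d / ρ * T1 D f) + 2 * (nr (2 * d) f).card := by
  have hd1 : (1 : ℝ) ≤ d := by exact_mod_cast hd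
  have hd0 : (0 : ℝ) < d := by linarith
  have hlog0 : 0 ≤ Real.log (1 + 2 * (d * H) * d ^ 2) := by
    apply Real.log_nonneg
    have : 0 ≤ 2 * (d * H) * (d : ℝ) ^ 2 := by positivity
    linarith
  have hΛ0 : 0 ≤ Λ := by linarith
  intro N
  induction N using Nat.strong_induction_on with
  | _ N ih =>
    intro f hf h0 hpar hS hW1 hT1 hM1 ρ hρ0 hρr
    have hfne : f ≠ 0 := by rintro rfl; simp at h0
    by_cases hex : ∃ a : ℂ, aeval a f = 0 ∧ ‖a‖ ≤ 2 * d
    · obtain ⟨a, ha, haD⟩ := hex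
      obtain ⟨haP, him⟩ := hpar a ha
      rcases fac_cases f h0 a ha with ⟨him', -⟩ | ⟨-, g, hg, hg0, hgd⟩
      · exact absurd him' him
      have hgne : g ≠ 0 := by rintro rfl; simp at hg0
      have hgpar : ∀ b : ℂ, aeval b g = 0 → b ∈ Par ∧ b.im ≠ 0 := by
        intro b hb
        apply hpar b
        rw [hg, map_mul, hb, mul_zero]
      have hpos := norm_pos_of_im him
      have hSg : S1 f = 1 / ‖a‖ + (1 / ‖a‖ + S1 g) := by
        unfold S1
        rw [hg, rts_quad _ _ hgne, Multiset.map_cons, Multiset.sum_cons, Multiset.map_cons,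
          Multiset.sum_cons, RCLike.norm_conj]
      have hi0 : 0 < 1 / ‖a‖ := by positivity
      have hSg2 : S1 g ≤ H := by linarith
      have hWg : W1 D f = 1 / √‖a‖ + (1 / √‖a‖ + W1 D g) := by
        rw [hg]; exact W1_quad D a g hgne him (haD.trans hD)
      have hi1 : (0 : ℝ) ≤ 1 / √‖a‖ := by positivity
      have hTg : T1 D f = T1 D g := by
        rw [hg]; exact T1_quad_near D a g hgne (haD.trans hD)
      have hMg : (nr (2 * d) f).card = (nr (2 * d) g).card + 2 := by
        rw [hg, nr_quad (2 * d) a g hgne him haD, Multiset.card_cons, Multiset.card_cons]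
      have hMg' : ((nr (2 * d) f).card : ℝ) = ((nr (2 * d) g).card : ℝ) + 2 := by
        rw [hMg]; push_cast; ring
      have hmg0 : (0 : ℝ) ≤ ((nr (2 * d) g).card : ℝ) := Nat.cast_nonneg _
      have h1 := ih g.natDegree (by omega) g le_rfl hg0 hgpar hSg2 (by linarith) (by linarith)
        (by linarith)
      have hroots := root_bound d g.natDegree g le_rfl hg0
      have hdegg := natDegree_rop_pow g d hg0
      have hrg : rop g (X ^ d) ≠ 0 := by
        intro h
        rw [h, natDegree_zero] at hdegg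
        omega
      set β := |a.im| with hβ
      have hβ0 : 0 < β := abs_pos.2 him
      have hβ2 : β ^ 2 = a.im ^ 2 := sq_abs _
      have hA2 : ‖a‖ ^ 2 = a.re ^ 2 + β ^ 2 := by
        rw [hβ2, norm_sq_eq]
      have hTT : rop f (X ^ d) = TT a.re β (rop g (X ^ d)) := by
        rw [hg, rop_mul, rop_quad, hA2]
        rfl
      have hre : -(2 * (d : ℝ)) ≤ a.re := by
        have := (abs_le.1 (Complex.abs_re_le_norm a)).1
        linarith
      have hβ3 : β ^ 2 ≤ 3 * d := by
        rw [hβ2]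
        have := par_im haP
        linarith
      have hstep := near_step d a.re β r (d * H) Λ (rop g (X ^ d)) hrg hdegg hd hre hβ0 hβ3 hr0 hr
        (fun z hz => (hroots z hz).trans (mul_le_mul_of_nonneg_left hSg2 hd0.le))
        (by positivity) hΛ (by
          intro σ hσ0 hσr
          have e1 := h1 σ hσ0 hσr
          have e2 := mul_le_mul_of_nonneg_right (mul_le_mul_of_nonneg_right e1 hσ0.le) hΛ0
          refine e2.trans (le_trans ?_ hcond)
          refine mul_le_mul_of_nonneg_right ?_ hΛ0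
          have e3 := sqrt_scale d σ hd0.le hσ0
          have e4 : √(d * σ) ≤ √(d * r) := Real.sqrt_le_sqrt (by gcongr)
          have e5 := W1_nonneg D g
          have e6 : W1 D g ≤ W := by linarith
          have e7 : (d : ℝ) / σ * σ = d := by field_simp
          have e8 := T1_nonneg D g
          calc (2 * (√(d / σ) * W1 D g + d / σ * T1 D g) + 2 * ((nr (2 * d) g).card : ℝ)) * σ
              = 2 * ((√(d / σ) * σ) * W1 D g + (d / σ * σ) * T1 D g) +
                2 * ((nr (2 * d) g).card : ℝ) * σ := by ring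
            _ = 2 * (√(d * σ) * W1 D g + d * T1 D g) +
                2 * ((nr (2 * d) g).card : ℝ) * σ := by rw [e3, e7]
            _ ≤ 2 * (√(d * r) * W + d * τ) + 2 * M * r := by
                have f1 : √(d * σ) * W1 D g ≤ √(d * r) * W :=
                  mul_le_mul e4 e6 e5 (Real.sqrt_nonneg _)
                have f2 : (d : ℝ) * T1 D g ≤ d * τ :=
                  mul_le_mul_of_nonneg_left (by linarith) hd0.le
                have f3 : 2 * ((nr (2 * d) g).card : ℝ) * σ ≤ 2 * M * r :=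
                  mul_le_mul (by linarith) hσr hσ0.le (by positivity)
                linarith) ρ hρr
      rw [← hTT] at hstep
      have h2 := h1 ρ hρ0 hρr
      have h3 : (cnt (rop g (X ^ d)) (Icc (-ρ) 0) : ℝ) ≤ cnt (rop f (X ^ d)) (Icc (-ρ) 0) + 4 := by
        exact_mod_cast hstep
      have h4 : √(d / ρ) * W1 D g ≤ √(d / ρ) * W1 D f :=
        mul_le_mul_of_nonneg_left (by linarith) (Real.sqrt_nonneg _)
      rw [hMg', hTg]
      linarith
    · push Not at hex
      have hfar := far f d h0 (fun a ha => (hpar a ha).2) (fun a ha => by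
          have h1 := hex a ha
          have h2 := (par_facts a (hpar a ha).1 (by linarith)).1
          linarith) (fun a ha => by
          have h1 := hex a ha
          obtain ⟨-, him2⟩ := par_facts a (hpar a ha).1 (by linarith)
          have h2 : (d : ℝ) ≤ ‖a‖ / 2 := by linarith
          calc (d : ℝ) * a.im ^ 2 ≤ ‖a‖ / 2 * (5 / 4 * ‖a‖) := by gcongr
            _ ≤ ‖a‖ ^ 2 := by nlinarith [norm_nonneg a]) ρ hρ0
      have h1 := Ls_le D (d / ρ) (by positivity) f fun a ha => (hpar a ((mem_rts hfne).1 ha)).2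
      have h2 : (0 : ℝ) ≤ ((nr (2 * d) f).card : ℝ) := Nat.cast_nonneg _
      linarith

/-- **The main theorem for polynomials.** -/
theorem poly (d : ℕ) (hd : 1 ≤ d) (D H Λ r W τ : ℝ) (hD : 2 * (d : ℝ) ≤ D) (hH : 0 ≤ H)
    (hΛ : 2 + 4 * Real.log (1 + 2 * (d * H) * d ^ 2) ≤ Λ) (hr0 : 0 < r) (hr : r ≤ 1 / 40)
    (hW : 0 ≤ W) (hτ : 0 ≤ τ)
    (hcond : (2 * (√(d * r) * W + d * τ) + 2 * (√(2 * d) * W) * r) * Λ ≤ √d / 40) :
    ∀ (N : ℕ) (f : ℝ[X]), f.natDegree ≤ N → f.coeff 0 ≠ 0 →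
    (∀ a : ℂ, aeval a f = 0 → a ∈ Par) → S1 f ≤ H → W1 D f ≤ W → T1 D f ≤ τ →
    (nonreal (rop f (X ^ d)) : ℝ) ≤ 2 * (√(d / r) * W + d / r * τ) + 2 * (√(2 * d) * W) := by
  classical
  have hd1 : (1 : ℝ) ≤ d := by exact_mod_cast hd
  have hd0 : (0 : ℝ) < d := by linarith
  intro N
  induction N using Nat.strong_induction_on with
  | _ N ih =>
    intro f hf h0 hpar hS hW1 hT1
    have hfne : f ≠ 0 := by rintro rfl; simp at h0
    by_cases hex : ∃ a : ℂ, aeval a f = 0 ∧ a.im = 0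
    · obtain ⟨a, ha, him⟩ := hex
      rcases fac_cases f h0 a ha with ⟨-, g, hg, hg0, hgd, hre⟩ | ⟨him', -⟩
      swap
      · exact absurd him him'
      have hgne : g ≠ 0 := by rintro rfl; simp at hg0
      have e1 : rts f = ((a.re : ℝ) : ℂ) ::ₘ rts g := by rw [hg]; exact rts_lin _ _ hgne
      have hSg : S1 g ≤ H := by
        have : S1 f = 1 / ‖((a.re : ℝ) : ℂ)‖ + S1 g := by
          unfold S1
          rw [e1, Multiset.map_cons, Multiset.sum_cons]
        have h2 : (0 : ℝ) ≤ 1 / ‖((a.re : ℝ) : ℂ)‖ := by positivity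
        linarith
      have hWg : W1 D g ≤ W := by
        refine le_trans (le_of_eq ?_) hW1
        unfold W1 nr
        rw [e1, Multiset.filter_cons_of_neg]
        simp
      have hTg : T1 D g ≤ τ := by
        refine le_trans (le_of_eq ?_) hT1
        unfold T1
        rw [e1, Multiset.filter_cons_of_neg]
        simp
      have h1 := ih g.natDegree (by omega) g le_rfl hg0 (fun b hb => hpar b (by
        rw [hg, map_mul, hb, mul_zero])) hSg hWg hTg
      refine le_trans ?_ h1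
      have hrg : rop g (X ^ d) ≠ 0 := by
        intro h
        have := natDegree_rop_pow g d hg0
        rw [h, natDegree_zero] at this
        omega
      have h2 := nonreal_lin a.re hre (rop g (X ^ d)) hrg
      rw [← rop_mul, ← hg] at h2
      exact_mod_cast h2
    · push Not at hex
      have hc := card_nr D (2 * d) hD f
      have hc' : ((nr (2 * d) f).card : ℝ) ≤ √(2 * d) * W :=
        hc.trans (mul_le_mul_of_nonneg_left hW1 (Real.sqrt_nonneg _))
      have h1 := poly_aux d hd D H Λ r W τ (√(2 * d) * W) hD hH hΛ hr0 hr (by positivity) hW hτ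
        hcond f.natDegree f le_rfl h0 (fun a ha => ⟨hpar a ha, hex a ha⟩) hS hW1 hT1 hc' r hr0 le_rfl
      have h2 := nonreal_eq (rop f (X ^ d))
      rw [natDegree_rop_pow f d h0] at h2
      have h3 : cnt (rop f (X ^ d)) (Icc (-r) 0) ≤ (rop f (X ^ d)).roots.card :=
        (cnt_mono (subset_univ _)).trans (cnt_univ _).le
      have h4 : (nonreal (rop f (X ^ d)) : ℝ) ≤ (d : ℝ) - cnt (rop f (X ^ d)) (Icc (-r) 0) := by
        have h5 : nonreal (rop f (X ^ d)) + cnt (rop f (X ^ d)) (Icc (-r) 0) ≤ d := by omega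
        have h6 : (nonreal (rop f (X ^ d)) : ℝ) + cnt (rop f (X ^ d)) (Icc (-r) 0) ≤ d := by
          exact_mod_cast h5
        linarith
      refine h4.trans (h1.trans ?_)
      have h5 : √(d / r) * W1 D f ≤ √(d / r) * W :=
        mul_le_mul_of_nonneg_left hW1 (Real.sqrt_nonneg _)
      have h6 : (d : ℝ) / r * T1 D f ≤ d / r * τ := mul_le_mul_of_nonneg_left hT1 (by positivity)
      linarith

end Pool.Agent.Zk17.JQ
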