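import Pool.Agent.Zk17.JQ.D
import Pool.Agent.Zk6.JD9

set_option autoImplicit false

/-!
# Jensen polynomials, square root bound, step 5: entire functions
-/

namespace Pool.Agent.Zk17.JQ

open Complex Filter Topology Polynomial Metric

section Had

open Pool.Agent.Helper242.KK Pool.Agent.H24R2.JP

/-- Hadamard factorisation as polynomial approximation; the polynomials divide the function -/
theorem had' (f : ℂ → ℂ) (K : ℝ) (hf : Differentiable ℂ f) (h0 : f 0 ≠ 0)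
    (hsym : ∀ x, f ((starRingEnd ℂ) x) = (starRingEnd ℂ) (f x))
    (hb : ∀ x, ‖f x‖ ≤ Real.exp (K * (1 + ‖x‖) ^ (3 / 4 : ℝ))) :
    ∃ P : ℕ → ℝ[X], (∀ N : ℕ, ∃ G : ℂ → ℂ, Differentiable ℂ G ∧ ∀ w, f w = aeval w (P N) * G w) ∧
      TendstoLocallyUniformly (fun (N : ℕ) (x : ℂ) => aeval x (P N)) f atTop := by
  set K' : ℝ := max K 0 with hK'
  have hK0 : 0 ≤ K' := le_max_right _ _
  have hbr : ∀ r : ℝ, ∀ w : ℂ, ‖w‖ ≤ r → ‖f w‖ ≤ Real.exp (K' * (1 + r) ^ (3/4 : ℝ)) := by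
    intro r w hw
    refine (hb w).trans (Real.exp_le_exp.2 ?_)
    calc K * (1 + ‖w‖) ^ (3/4 : ℝ) ≤ K' * (1 + ‖w‖) ^ (3/4 : ℝ) :=
          mul_le_mul_of_nonneg_right (le_max_left _ _)
            (Real.rpow_nonneg (by linarith [norm_nonneg w]) _)
      _ ≤ K' * (1 + r) ^ (3/4 : ℝ) :=
          mul_le_mul_of_nonneg_left (Real.rpow_le_rpow (by linarith [norm_nonneg w])
            (by linarith) (by norm_num)) hK0
  have h00 : ((f 0).re : ℂ) = f 0 := by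
    apply Complex.conj_eq_iff_re.1
    rw [← hsym, map_zero]
  have hre0 : (f 0).re ≠ 0 := by
    intro h
    apply h0
    rw [← h00, h]
    simp
  have hre0c : ((f 0).re : ℂ) ≠ 0 := by exact_mod_cast hre0
  set c : ℝ := |Real.log ‖f 0‖| with hc
  have main : ∀ N : ℕ, ∃ (P : ℝ[X]) (L : ℂ → ℂ),
      (∃ G : ℂ → ℂ, Differentiable ℂ G ∧ ∀ w, f w = aeval w P * G w) ∧
      ∀ w : ℂ, ‖w‖ < (N : ℝ) + 1 → f w = aeval w P * cexp (L w) ∧
        ‖L w‖ ≤ 2 * (K' * (1 + 2 * ((N : ℝ) + 1)) ^ (3/4 : ℝ) + c) *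
          (‖w‖ / (((N : ℝ) + 1) - ‖w‖)) := by
    intro N
    have hρ : 0 < (N : ℝ) + 1 := by positivity
    obtain ⟨n, hn⟩ := exists_nat_ge
      (∑ᶠ u, (MeromorphicOn.divisor f (closedBall 0 ((N : ℝ) + 1)) u : ℝ) * 1)
    obtain ⟨P, G, hG, hG0, hGb, hFG, hnz⟩ := had_split (M := K' * (1 + 2 * ((N : ℝ) + 1)) ^
      (3/4 : ℝ)) hρ n f hf h0 hsym (fun w hw => hbr _ w (by simpa using hw)) hn
    obtain ⟨L, hA, hL⟩ := had_base hG hρ (fun u hu => hnz u (ball_subset_closedBall hu))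
      (fun w hw => hGb w (ball_subset_closedBall (ball_subset_ball (by linarith) hw)))
    refine ⟨Polynomial.C (f 0).re * P, L, ?_, ?_⟩
    · refine ⟨fun w => G w / ((f 0).re : ℂ), hG.div_const _, fun w => ?_⟩
      rw [map_mul, aeval_C, Complex.coe_algebraMap, hFG w]
      field_simp
    · intro w hw
      obtain ⟨h1, h2⟩ := hL w hw
      constructor
      · rw [hFG w, h1, hG0, map_mul, aeval_C, Complex.coe_algebraMap, h00]
        ring
      · refine h2.trans ?_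
        apply mul_le_mul_of_nonneg_right _ (div_nonneg (norm_nonneg _) (by linarith))
        rw [hG0]
        have := neg_abs_le (Real.log ‖f 0‖)
        linarith
  choose P L h1 h2 using main
  refine ⟨P, h1, ?_⟩
  rw [Metric.tendstoLocallyUniformly_iff]
  intro ε hε x
  set r : ℝ := ‖x‖ + 1 with hr
  have hr0 : 0 < r := by positivity
  set B : ℝ := Real.exp (K' * (1 + r) ^ (3/4 : ℝ)) with hB
  have hB0 : 0 < B := Real.exp_pos _
  refine ⟨ball 0 r, ?_, ?_⟩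
  · apply isOpen_ball.mem_nhds
    simp [hr]
  have hδ : 0 < min 1 (ε / (2 * B)) := by positivity
  filter_upwards [had_lim hK0 hr0 (abs_nonneg (Real.log ‖f 0‖)) hδ] with N hN
  intro y hy
  have hyr : ‖y‖ < r := by simpa using hy
  obtain ⟨hN1, hN2⟩ := hN
  obtain ⟨h3, h4⟩ := h2 N y (hyr.trans hN1)
  have h5 : ‖y‖ / (((N : ℝ) + 1) - ‖y‖) ≤ r / (((N : ℝ) + 1) - r) := by
    apply div_le_div₀ hr0.le hyr.le (by linarith) (by linarith)
  have h6 : 0 ≤ 2 * (K' * (1 + 2 * ((N : ℝ) + 1)) ^ (3/4 : ℝ) + c) := by positivity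
  have h7 : ‖L N y‖ < min 1 (ε / (2 * B)) :=
    lt_of_le_of_lt (h4.trans (mul_le_mul_of_nonneg_left h5 h6)) hN2
  have h8 : ‖L N y‖ < 1 := h7.trans_le (min_le_left _ _)
  have h9 : ‖L N y‖ < ε / (2 * B) := h7.trans_le (min_le_right _ _)
  have h10 : aeval y (P N) = f y * cexp (-(L N y)) := by
    rw [h3, mul_assoc, ← Complex.exp_add]
    simp
  rw [dist_eq_norm, h10]
  have h11 : f y - f y * cexp (-(L N y)) = -(f y * (cexp (-(L N y)) - 1)) := by ring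
  rw [h11, norm_neg, norm_mul]
  have h12 : ‖cexp (-(L N y)) - 1‖ ≤ 2 * ‖-(L N y)‖ :=
    Complex.norm_exp_sub_one_le (by rw [norm_neg]; exact h8.le)
  rw [norm_neg] at h12
  have h13 : ‖f y‖ ≤ B := hbr r y hyr.le
  calc ‖f y‖ * ‖cexp (-(L N y)) - 1‖ ≤ B * (2 * ‖L N y‖) :=
        mul_le_mul h13 h12 (norm_nonneg _) hB0.le
    _ < B * (2 * (ε / (2 * B))) := by
        apply mul_lt_mul_of_pos_left _ hB0
        linarith
    _ = ε := by field_simp

end Had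

open Pool.Agent.TH99.RJ (nonreal nonreal_eq aeval_eq_map rop rop_eq_Ap Ap Jp nonreal_Jp natDegree_Ap)
open Pool.Agent.Zk6.JD (rts S1 W1 mem_rts lim_nonreal nr)
open Pool.Agent.H24R2.JP (Par App)

theorem order_ne_top {f : ℂ → ℂ} (hf : Differentiable ℂ f) (h0 : f 0 ≠ 0) (a : ℂ) :
    analyticOrderAt f a ≠ ⊤ := by
  intro h
  rw [analyticOrderAt_eq_top] at h
  have h1 : AnalyticOnNhd ℂ f Set.univ := fun z _ => hf.analyticAt z
  have h2 := h1.eqOn_zero_of_preconnected_of_eventuallyEq_zero isPreconnected_univ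
    (Set.mem_univ a) h
  exact h0 (h2 (Set.mem_univ 0))

/-- the multiplicities of a divisor -/
theorem mult_dvd {f G : ℂ → ℂ} (hf : Differentiable ℂ f) (h0 : f 0 ≠ 0) (hG : Differentiable ℂ G)
    (P : ℝ[X]) (hfP : ∀ w, f w = aeval w P * G w) (a : ℂ) :
    (P.map (algebraMap ℝ ℂ)).rootMultiplicity a ≤ analyticOrderNatAt f a := by
  have hP : P.map (algebraMap ℝ ℂ) ≠ 0 := by
    intro h
    apply h0
    rw [hfP, aeval_eq_map, h]
    simp
  obtain ⟨Q, hQ, -⟩ := (P.map (algebraMap ℝ ℂ)).exists_eq_pow_rootMultiplicity_mul_and_not_dvd hP a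
  set m := (P.map (algebraMap ℝ ℂ)).rootMultiplicity a with hm
  have h1 : (m : ℕ∞) ≤ analyticOrderAt f a := by
    rw [natCast_le_analyticOrderAt (hf.analyticAt a)]
    refine ⟨fun w => Q.eval w * G w, ?_, Filter.Eventually.of_forall fun w => ?_⟩
    · exact ((Q.differentiable).mul hG).analyticAt a
    · rw [hfP, aeval_eq_map, hQ]
      simp only [eval_mul, eval_pow, eval_sub, eval_X, eval_C, smul_eq_mul]
      ring
  have h2 := Nat.cast_analyticOrderNatAt (order_ne_top hf h0 a)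
  rw [← h2] at h1
  exact_mod_cast h1

/-- sums over the zeros of a divisor -/
theorem sum_dvd {f G : ℂ → ℂ} (hf : Differentiable ℂ f) (h0 : f 0 ≠ 0) (hG : Differentiable ℂ G)
    (P : ℝ[X]) (hfP : ∀ w, f w = aeval w P * G w) (p : ℂ → Prop) [DecidablePred p] (φ : ℂ → ℝ)
    (hφ : ∀ x, 0 ≤ φ x) (B : ℝ)
    (hB : ∀ S : Finset ℂ, (∀ x ∈ S, f x = 0 ∧ p x) →
      ∑ x ∈ S, (analyticOrderNatAt f x : ℝ) * φ x ≤ B) :
    (((rts P).filter p).map φ).sum ≤ B := by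
  classical
  have hP : P ≠ 0 := by
    rintro rfl
    apply h0
    rw [hfP]
    simp
  have h1 := hB ((rts P).filter p).toFinset (fun x hx => by
    rw [Multiset.mem_toFinset, Multiset.mem_filter, mem_rts hP] at hx
    exact ⟨by rw [hfP, hx.1, zero_mul], hx.2⟩)
  refine le_trans ?_ h1
  rw [Finset.sum_multiset_map_count]
  refine Finset.sum_le_sum fun a _ => ?_
  rw [nsmul_eq_mul]
  refine mul_le_mul_of_nonneg_right ?_ (hφ a)
  have h4 : ((rts P).filter p).count a ≤ (rts P).count a :=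
    Multiset.count_le_of_le a (Multiset.filter_le _ _)
  have h5 : (rts P).count a = (P.map (algebraMap ℝ ℂ)).rootMultiplicity a := by
    unfold rts
    rw [count_roots]
  have h6 := mult_dvd hf h0 hG P hfP a
  exact_mod_cast h4.trans (h5.le.trans h6)

/-- **The main theorem for entire functions.** -/
theorem entire (f : ℂ → ℂ) (γ : ℕ → ℝ) (hf : Differentiable ℂ f)
    (hconj : ∀ x, f ((starRingEnd ℂ) x) = (starRingEnd ℂ) (f x))
    (hgr : ∃ K : ℝ, ∀ x, ‖f x‖ ≤ Real.exp (K * (1 + ‖x‖) ^ (3 / 4 : ℝ)))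
    (hγ : ∀ j, iteratedDeriv j f 0 = ((γ j : ℝ) : ℂ)) (h0 : γ 0 ≠ 0)
    (hpar : ∀ w, f w = 0 → w ∈ Par) (d : ℕ) (hd : 1 ≤ d) (D H Λ r W τ : ℝ)
    (hD : 2 * (d : ℝ) ≤ D) (hH : 0 ≤ H)
    (hΛ : 2 + 4 * Real.log (1 + 2 * (d * H) * d ^ 2) ≤ Λ) (hr0 : 0 < r) (hr : r ≤ 1 / 40)
    (hcond : (2 * (√(d * r) * W + d * τ) + 2 * (√(2 * d) * W) * r) * Λ ≤ √d / 40)
    (hS1 : ∀ S : Finset ℂ, (∀ x ∈ S, f x = 0) →
      ∑ x ∈ S, (analyticOrderNatAt f x : ℝ) * (1 / ‖x‖) ≤ H)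
    (hW1 : ∀ S : Finset ℂ, (∀ x ∈ S, f x = 0 ∧ x.im ≠ 0 ∧ ‖x‖ ≤ D) →
      ∑ x ∈ S, (analyticOrderNatAt f x : ℝ) * (1 / √‖x‖) ≤ W)
    (hT1 : ∀ S : Finset ℂ, (∀ x ∈ S, f x = 0 ∧ x.im ≠ 0 ∧ D < ‖x‖) →
      ∑ x ∈ S, (analyticOrderNatAt f x : ℝ) * (1 / ‖x‖) ≤ τ) :
    (nonreal (Jp d γ) : ℝ) ≤ 2 * (√(d / r) * W + d / r * τ) + 2 * (√(2 * d) * W) := by
  classical
  have hf0 : f 0 ≠ 0 := by
    have := hγ 0
    rw [iteratedDeriv_zero] at this
    rw [this]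
    exact_mod_cast h0
  obtain ⟨K, hK⟩ := hgr
  obtain ⟨P, hP, hloc⟩ := had' f K hf hf0 hconj hK
  have hPz : ∀ N x, aeval x (P N) = 0 → f x = 0 := by
    intro N x hx
    obtain ⟨G, -, hG⟩ := hP N
    rw [hG, hx, zero_mul]
  have happ : App f P := ⟨fun N x hx => hpar x (hPz N x hx), hloc⟩
  have hcoef : ∀ j, Tendsto (fun N => (j.factorial : ℝ) * (P N).coeff j) atTop (𝓝 (γ j)) := by
    intro j
    have h1 := Pool.Agent.TH99.RJ.der_real happ (γ := γ) hγ 0 j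
    rw [zero_add] at h1
    exact h1
  have hW0 : 0 ≤ W := by simpa using hW1 ∅ (by simp)
  have hτ0 : 0 ≤ τ := by simpa using hT1 ∅ (by simp)
  have hc0 : Tendsto (fun N => (P N).coeff 0) atTop (𝓝 (γ 0)) := by
    have := hcoef 0
    simpa using this
  rw [nonreal_Jp d γ h0]
  set B := 2 * (√(d / r) * W + d / r * τ) + 2 * (√(2 * d) * W) with hB
  have hnn : 0 ≤ B := by positivity
  have hmain : nonreal (Ap d γ) ≤ ⌊B⌋₊ := by
    refine lim_nonreal d hd (fun N j => (j.factorial : ℝ) * (P N).coeff j) γ h0 hcoef _ ?_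
    filter_upwards [hc0.eventually_ne h0] with N h2
    rw [Nat.le_floor_iff hnn, ← rop_eq_Ap]
    obtain ⟨G, hG, hPG⟩ := hP N
    refine poly d hd D H Λ r W τ hD hH hΛ hr0 hr hW0 hτ0 hcond (P N).natDegree (P N) le_rfl h2
      (fun a ha => hpar a (hPz N a ha)) ?_ ?_ ?_
    · have := sum_dvd hf hf0 hG (P N) hPG (fun _ => True) (fun x => 1 / ‖x‖)
        (fun x => by positivity) H (fun S hS => hS1 S fun x hx => (hS x hx).1)
      unfold S1
      simpa using this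
    · have := sum_dvd hf hf0 hG (P N) hPG (fun a => a.im ≠ 0 ∧ ‖a‖ ≤ D) (fun x => 1 / √‖x‖)
        (fun x => by positivity) W hW1
      unfold W1 nr
      convert this using 3
    · have := sum_dvd hf hf0 hG (P N) hPG (fun a => a.im ≠ 0 ∧ D < ‖a‖) (fun x => 1 / ‖x‖)
        (fun x => by positivity) τ hT1
      unfold T1
      convert this using 3
  exact (Nat.cast_le.2 hmain).trans (Nat.floor_le hnn)

end Pool.Agent.Zk17.JQ
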