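import Pool.Agent.Zk17.JQ.E
import Pool.Agent.Zk6.JD10
import Pool.Agent.Zk5.JD.Cnt

set_option autoImplicit false

/-!
# Jensen polynomials, square root bound, step 6: sums over the zeros of the derivatives
-/

namespace Pool.Agent.Zk17.JQ

open Filter Topology
open Pool.Agent.TH99.RJ (BB BB_half BB_nonneg BB_mono unif diff_iter)
open Pool.Agent.H24R2.JP (FF gam)

/-- sum over points with a counting function of order `θ` -/
theorem dyadic_sum (S : Finset ℂ) (m : ℂ → ℝ) (hm : ∀ x, 0 ≤ m x) (A θ q ε : ℝ) (hA : 0 ≤ A)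
    (hθq : θ < q) (hq : 0 ≤ q) (hε : 0 < ε) (hε1 : ε ≤ 1) (hS : ∀ x ∈ S, ε ≤ ‖x‖)
    (hcount : ∀ R : ℝ, 1 ≤ R → ∑ x ∈ S.filter (fun x => ‖x‖ ≤ R), m x ≤ A * R ^ θ) :
    ∑ x ∈ S, m x * ‖x‖ ^ (-q) ≤ (2 / ε) ^ q * (A / (1 - 2 ^ (θ - q))) := by
  classical
  set k : ℂ → ℕ := fun x => ⌈Real.logb 2 ‖x‖⌉₊ with hk
  have h1 : ∀ x ∈ S, ‖x‖ ≤ (2 : ℝ) ^ (k x) ∧ (2 : ℝ) ^ (k x) ≤ 2 / ε * ‖x‖ := by
    intro x hx
    have hx0 : 0 < ‖x‖ := lt_of_lt_of_le hε (hS x hx)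
    have hlog : (2 : ℝ) ^ (Real.logb 2 ‖x‖) = ‖x‖ :=
      Real.rpow_logb (by norm_num) (by norm_num) hx0
    constructor
    · rw [← Real.rpow_natCast]
      conv_lhs => rw [← hlog]
      exact Real.rpow_le_rpow_of_exponent_le (by norm_num) (Nat.le_ceil _)
    · rcases le_total 0 (Real.logb 2 ‖x‖) with h | h
      · have e1 : ((k x : ℕ) : ℝ) ≤ Real.logb 2 ‖x‖ + 1 := (Nat.ceil_lt_add_one h).le
        rw [← Real.rpow_natCast]
        calc (2 : ℝ) ^ ((k x : ℕ) : ℝ) ≤ 2 ^ (Real.logb 2 ‖x‖ + 1) :=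
              Real.rpow_le_rpow_of_exponent_le (by norm_num) e1
          _ = 2 * ‖x‖ := by rw [Real.rpow_add (by norm_num), hlog, Real.rpow_one]; ring
          _ ≤ 2 / ε * ‖x‖ := by
              apply mul_le_mul_of_nonneg_right _ hx0.le
              rw [le_div_iff₀ hε]; linarith
      · have e1 : k x = 0 := Nat.ceil_eq_zero.2 h
        rw [e1, pow_zero]
        have := hS x hx
        have e2 : 1 ≤ 2 / ε * ε := by rw [div_mul_cancel₀ _ hε.ne']; norm_num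
        calc (1 : ℝ) ≤ 2 / ε * ε := e2
          _ ≤ 2 / ε * ‖x‖ := mul_le_mul_of_nonneg_left this (by positivity)
  have h2 : ∀ x ∈ S, m x * ‖x‖ ^ (-q) ≤ (2 / ε) ^ q * (m x * ((2 : ℝ) ^ (k x)) ^ (-q)) := by
    intro x hx
    have hx0 : 0 < ‖x‖ := lt_of_lt_of_le hε (hS x hx)
    obtain ⟨e1, e2⟩ := h1 x hx
    have e3 : ‖x‖ ^ (-q) ≤ (2 / ε) ^ q * ((2 : ℝ) ^ (k x)) ^ (-q) := by
      have e4 : ((2 : ℝ) ^ (k x)) ^ q ≤ (2 / ε) ^ q * ‖x‖ ^ q := by
        rw [← Real.mul_rpow (by positivity) hx0.le]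
        exact Real.rpow_le_rpow (by positivity) e2 hq
      rw [Real.rpow_neg hx0.le, Real.rpow_neg (by positivity), ← div_eq_mul_inv,
        le_div_iff₀ (by positivity), inv_mul_eq_div, div_le_iff₀ (by positivity)]
      exact e4
    calc m x * ‖x‖ ^ (-q) ≤ m x * ((2 / ε) ^ q * ((2 : ℝ) ^ (k x)) ^ (-q)) :=
          mul_le_mul_of_nonneg_left e3 (hm x)
      _ = _ := by ring
  refine (Finset.sum_le_sum h2).trans ?_
  rw [← Finset.mul_sum]
  refine mul_le_mul_of_nonneg_left ?_ (by positivity)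
  set K := S.sup k + 1 with hK
  have h3 : ∀ x ∈ S, k x ∈ Finset.range K := fun x hx =>
    Finset.mem_range.2 (Nat.lt_succ_of_le (Finset.le_sup hx))
  rw [← Finset.sum_fiberwise_of_maps_to h3]
  have hz0 : (0 : ℝ) < 2 ^ (θ - q) := by positivity
  have hz1 : (2 : ℝ) ^ (θ - q) < 1 := Real.rpow_lt_one_of_one_lt_of_neg (by norm_num) (by linarith)
  have h4 : ∀ j ∈ Finset.range K, ∑ x ∈ S.filter (fun x => k x = j),
      m x * ((2 : ℝ) ^ (k x)) ^ (-q) ≤ A * (2 ^ (θ - q)) ^ j := by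
    intro j _
    have e1 : ∑ x ∈ S.filter (fun x => k x = j), m x * ((2 : ℝ) ^ (k x)) ^ (-q) =
        (∑ x ∈ S.filter (fun x => k x = j), m x) * ((2 : ℝ) ^ j) ^ (-q) := by
      rw [Finset.sum_mul]
      refine Finset.sum_congr rfl fun x hx => ?_
      rw [(Finset.mem_filter.1 hx).2]
    have e2 : ∑ x ∈ S.filter (fun x => k x = j), m x ≤ A * ((2 : ℝ) ^ j) ^ θ := by
      refine le_trans (Finset.sum_le_sum_of_subset_of_nonneg ?_ fun x _ _ => hm x)
        (hcount (2 ^ j) (one_le_pow₀ (by norm_num)))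
      intro x hx
      rw [Finset.mem_filter] at hx ⊢
      refine ⟨hx.1, ?_⟩
      rw [← hx.2]
      exact (h1 x hx.1).1
    rw [e1]
    refine (mul_le_mul_of_nonneg_right e2 (by positivity)).trans (le_of_eq ?_)
    have e3 : (0 : ℝ) < (2 : ℝ) ^ j := by positivity
    rw [mul_assoc, ← Real.rpow_add e3, ← Real.rpow_natCast, ← Real.rpow_mul (by norm_num),
      ← Real.rpow_natCast, ← Real.rpow_mul (by norm_num)]
    congr 2
    ring
  refine (Finset.sum_le_sum h4).trans ?_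
  rw [← Finset.mul_sum, div_eq_mul_inv]
  refine mul_le_mul_of_nonneg_left ?_ hA
  have h5 := (summable_geometric_of_lt_one hz0.le hz1).sum_le_tsum (Finset.range K)
    fun i _ => by positivity
  rwa [tsum_geometric_of_lt_one hz0.le hz1] at h5

/-- uniform bounds for the zeros of the derivatives -/
theorem zeros_unif : ∃ K ε : ℝ, 0 < K ∧ 0 < ε ∧ ε ≤ 1 ∧ ∀ n : ℕ,
    (∀ x, iteratedDeriv n FF x = 0 → ε ≤ ‖x‖) ∧
    ∀ R : ℝ, 1 ≤ R → ∀ S : Finset ℂ, (∀ x ∈ S, ‖x‖ ≤ R) →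
      ∑ x ∈ S, (analyticOrderNatAt (iteratedDeriv n FF) x : ℝ) ≤ K * BB (2 * R) := by
  obtain ⟨n0, h⟩ := Pool.Agent.Zk6.JD.hypFF
  obtain ⟨K, hK, hb⟩ := unif h.diff h.grow h.coef h.pos h.lc
  have hpos := Pool.Agent.H24R2.JP.gamT.1
  have h0 : ∀ n, ‖iteratedDeriv n FF 0‖ = |gam n| := by
    intro n
    rw [h.coef, Complex.norm_real, Real.norm_eq_abs]
  have hne : ∀ n, iteratedDeriv n FF 0 ≠ 0 := by
    intro n h1
    have := h0 n
    rw [h1, norm_zero] at this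
    exact (hpos n).ne' (abs_eq_zero.1 this.symm)
  have hb' : ∀ n w, ‖iteratedDeriv n FF w‖ ≤ Real.exp (K * BB ‖w‖) * ‖iteratedDeriv n FF 0‖ := by
    intro n w
    rw [h0, mul_comm]
    exact hb n (hpos n).ne' w
  have hl2 : 1 / 2 ≤ Real.log 2 := by
    have := Real.log_two_gt_d9
    linarith
  set ε := Real.exp (-(K * BB 1 + 1)) with hε
  have hB1 : 0 ≤ BB 1 := BB_nonneg (by norm_num)
  refine ⟨2 * K + 1, ε, by positivity, Real.exp_pos _, ?_, fun n => ⟨?_, ?_⟩⟩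
  · rw [hε, Real.exp_le_one_iff]
    have : 0 ≤ K * BB 1 := by positivity
    linarith
  · intro x hx
    by_contra hcon
    push Not at hcon
    have hε1 : ε < 1 := by
      rw [hε, Real.exp_lt_one_iff]
      have : 0 ≤ K * BB 1 := by positivity
      linarith
    have h1 := Pool.Agent.W125.SD.jcount (diff_iter h.diff n) (c := 0) (r := ε) (R := 1)
      (A := K * BB 1) (Real.exp_pos _) hε1 (hne n) (by
        intro z hz
        rw [sub_zero] at hz
        refine (hb' n z).trans (mul_le_mul_of_nonneg_right (Real.exp_le_exp.2 ?_) (norm_nonneg _))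
        exact mul_le_mul_of_nonneg_left (BB_mono (norm_nonneg _) hz) hK) {x} (by
        intro s hs
        rw [Finset.mem_singleton] at hs
        rw [hs, sub_zero]
        exact hcon.le)
    rw [Finset.sum_singleton] at h1
    have h2 : (1 : ℝ) ≤ analyticOrderNatAt (iteratedDeriv n FF) x := by
      have h3 : analyticOrderAt (iteratedDeriv n FF) x ≠ 0 := by
        rw [Ne, analyticOrderAt_eq_zero, not_or, not_not, not_not]
        exact ⟨(diff_iter h.diff n).analyticAt x, hx⟩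
      have h4 := Nat.cast_analyticOrderNatAt (order_ne_top (diff_iter h.diff n) (hne n) x)
      have h5 : analyticOrderNatAt (iteratedDeriv n FF) x ≠ 0 := by
        intro h6
        rw [h6] at h4
        exact h3 h4.symm
      exact_mod_cast Nat.one_le_iff_ne_zero.2 h5
    have h3 : Real.log (1 / ε) = K * BB 1 + 1 := by
      rw [one_div, Real.log_inv, hε, Real.log_exp, neg_neg]
    rw [h3] at h1
    have h4 : K * BB 1 / (K * BB 1 + 1) < 1 := by
      rw [div_lt_one (by positivity)]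
      linarith
    linarith
  · intro R hR S hS
    have hR0 : 0 < R := by linarith
    have h1 := Pool.Agent.W125.SD.jcount (diff_iter h.diff n) (c := 0) (r := R) (R := 2 * R)
      (A := K * BB (2 * R)) hR0 (by linarith) (hne n) (by
        intro z hz
        rw [sub_zero] at hz
        refine (hb' n z).trans (mul_le_mul_of_nonneg_right (Real.exp_le_exp.2 ?_) (norm_nonneg _))
        exact mul_le_mul_of_nonneg_left (BB_mono (norm_nonneg _) hz) hK) S (by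
        intro s hs
        rw [sub_zero]
        exact hS s hs)
    refine h1.trans ?_
    have h2 : 2 * R / R = 2 := by field_simp
    rw [h2]
    have h3 : 0 ≤ BB (2 * R) := BB_nonneg (by positivity)
    rw [div_le_iff₀ (by linarith)]
    have h4 : 0 ≤ K * BB (2 * R) := by positivity
    nlinarith

theorem BB_pow (θ : ℝ) (hθ : 1 / 2 < θ) : ∃ C : ℝ, 0 < C ∧ ∀ R : ℝ, 1 ≤ R → BB (2 * R) ≤ C * R ^ θ := by
  obtain ⟨s, hs⟩ : ∃ s : ℝ, s = θ - 1 / 2 := ⟨_, rfl⟩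
  have hs0 : 0 < s := by rw [hs]; linarith
  refine ⟨2 * (4 ^ s / s), by positivity, fun R hR => ?_⟩
  have hR0 : 0 < R := by linarith
  unfold BB
  have h1 : √(1 + 2 * R) ≤ 2 * R ^ (1 / 2 : ℝ) := by
    rw [← Real.sqrt_eq_rpow]
    have h2 : √(1 + 2 * R) ≤ √(2 ^ 2 * R) := Real.sqrt_le_sqrt (by linarith)
    rwa [Real.sqrt_mul (by norm_num), Real.sqrt_sq (by norm_num)] at h2
  have h2 : Real.log (2 + 2 * R) ≤ 4 ^ s / s * R ^ s := by
    have h3 := Real.log_le_rpow_div (x := 2 + 2 * R) (ε := s) (by linarith) hs0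
    have h4 : (2 + 2 * R) ^ s ≤ (4 * R) ^ s :=
      Real.rpow_le_rpow (by linarith) (by linarith) hs0.le
    rw [Real.mul_rpow (by norm_num) hR0.le] at h4
    calc Real.log (2 + 2 * R) ≤ (2 + 2 * R) ^ s / s := h3
      _ ≤ (4 ^ s * R ^ s) / s := by gcongr
      _ = _ := by ring
  have h3 : 0 ≤ Real.log (2 + 2 * R) := Real.log_nonneg (by linarith)
  calc √(1 + 2 * R) * Real.log (2 + 2 * R) ≤ (2 * R ^ (1 / 2 : ℝ)) * (4 ^ s / s * R ^ s) :=
        mul_le_mul h1 h2 h3 (by positivity)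
    _ = 2 * (4 ^ s / s) * (R ^ (1 / 2 : ℝ) * R ^ s) := by ring
    _ = 2 * (4 ^ s / s) * R ^ θ := by
        rw [← Real.rpow_add hR0, hs]
        congr 2
        ring

/-- uniform sums over the zeros of the derivatives -/
theorem sums_unif (q : ℝ) (hq : 1 / 2 < q) : ∃ C : ℝ, 0 < C ∧ ∀ (n : ℕ) (S : Finset ℂ),
    (∀ x ∈ S, iteratedDeriv n FF x = 0) →
    ∑ x ∈ S, (analyticOrderNatAt (iteratedDeriv n FF) x : ℝ) * ‖x‖ ^ (-q) ≤ C := by
  obtain ⟨K, ε, hK, hε, hε1, h⟩ := zeros_unif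
  obtain ⟨θ, hθ⟩ : ∃ θ : ℝ, θ = (q + 1 / 2) / 2 := ⟨_, rfl⟩
  obtain ⟨C, hC, hB⟩ := BB_pow θ (by rw [hθ]; linarith)
  have hθq : θ < q := by rw [hθ]; linarith
  have hz1 : (2 : ℝ) ^ (θ - q) < 1 := Real.rpow_lt_one_of_one_lt_of_neg (by norm_num) (by linarith)
  refine ⟨(2 / ε) ^ q * (K * C / (1 - 2 ^ (θ - q))), ?_, fun n S hS => ?_⟩
  · have : 0 < 1 - (2 : ℝ) ^ (θ - q) := by linarith
    positivity
  · obtain ⟨h1, h2⟩ := h n
    refine dyadic_sum S _ (fun x => Nat.cast_nonneg _) (K * C) θ q ε (by positivity) hθq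
      (by linarith) hε hε1 (fun x hx => h1 x (hS x hx)) fun R hR => ?_
    refine (h2 R hR _ fun x hx => (Finset.mem_filter.1 hx).2).trans ?_
    calc K * BB (2 * R) ≤ K * (C * R ^ θ) := mul_le_mul_of_nonneg_left (hB R hR) hK.le
      _ = _ := by ring

/-- the constants `H`, `τ`, `W` for the derivatives -/
theorem S1_unif : ∃ H : ℝ, 0 < H ∧ ∀ (n : ℕ) (S : Finset ℂ), (∀ x ∈ S, iteratedDeriv n FF x = 0) →
    ∑ x ∈ S, (analyticOrderNatAt (iteratedDeriv n FF) x : ℝ) * (1 / ‖x‖) ≤ H := by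
  obtain ⟨C, hC, h⟩ := sums_unif 1 (by norm_num)
  refine ⟨C, hC, fun n S hS => le_trans (le_of_eq ?_) (h n S hS)⟩
  refine Finset.sum_congr rfl fun x _ => ?_
  rw [Real.rpow_neg_one, one_div]

theorem T1_unif : ∃ C : ℝ, 0 < C ∧ ∀ (n : ℕ) (D : ℝ), 0 < D → ∀ (S : Finset ℂ),
    (∀ x ∈ S, iteratedDeriv n FF x = 0 ∧ x.im ≠ 0 ∧ D < ‖x‖) →
    ∑ x ∈ S, (analyticOrderNatAt (iteratedDeriv n FF) x : ℝ) * (1 / ‖x‖) ≤ C * D ^ (-(1 / 4) : ℝ) := by
  obtain ⟨C, hC, h⟩ := sums_unif (3 / 4) (by norm_num)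
  refine ⟨C, hC, fun n D hD S hS => ?_⟩
  have h1 := h n S fun x hx => (hS x hx).1
  have h2 : ∀ x ∈ S, (analyticOrderNatAt (iteratedDeriv n FF) x : ℝ) * (1 / ‖x‖) ≤
      (analyticOrderNatAt (iteratedDeriv n FF) x : ℝ) * ‖x‖ ^ (-(3 / 4) : ℝ) * D ^ (-(1 / 4) : ℝ) := by
    intro x hx
    have hxD := (hS x hx).2.2
    have hx0 : 0 < ‖x‖ := hD.trans hxD
    rw [mul_assoc]
    refine mul_le_mul_of_nonneg_left ?_ (Nat.cast_nonneg _)
    have e1 : 1 / ‖x‖ = ‖x‖ ^ (-(3 / 4) : ℝ) * ‖x‖ ^ (-(1 / 4) : ℝ) := by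
      rw [← Real.rpow_add hx0, one_div, ← Real.rpow_neg_one]
      congr 1
      norm_num
    rw [e1]
    refine mul_le_mul_of_nonneg_left ?_ (by positivity)
    exact Real.rpow_le_rpow_of_nonpos hD hxD.le (by norm_num)
  refine (Finset.sum_le_sum h2).trans ?_
  rw [← Finset.sum_mul]
  exact mul_le_mul_of_nonneg_right h1 (by positivity)

theorem W1_unif (s : ℝ) (hs : 0 < s) : ∃ C : ℝ, 0 < C ∧ ∀ (n : ℕ) (D : ℝ), 0 < D →
    ∀ (S : Finset ℂ), (∀ x ∈ S, iteratedDeriv n FF x = 0 ∧ x.im ≠ 0 ∧ ‖x‖ ≤ D) →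
    ∑ x ∈ S, (analyticOrderNatAt (iteratedDeriv n FF) x : ℝ) * (1 / √‖x‖) ≤ C * D ^ s := by
  obtain ⟨C, hC, h⟩ := sums_unif (1 / 2 + s) (by linarith)
  refine ⟨C, hC, fun n D hD S hS => ?_⟩
  have h1 := h n S fun x hx => (hS x hx).1
  have h2 : ∀ x ∈ S, (analyticOrderNatAt (iteratedDeriv n FF) x : ℝ) * (1 / √‖x‖) ≤
      (analyticOrderNatAt (iteratedDeriv n FF) x : ℝ) * ‖x‖ ^ (-(1 / 2 + s) : ℝ) * D ^ s := by
    intro x hx
    obtain ⟨-, him, hxD⟩ := hS x hx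
    have hx0 : 0 < ‖x‖ := norm_pos_of_im him
    rw [mul_assoc]
    refine mul_le_mul_of_nonneg_left ?_ (Nat.cast_nonneg _)
    have e1 : 1 / √‖x‖ = ‖x‖ ^ (-(1 / 2 + s) : ℝ) * ‖x‖ ^ s := by
      rw [← Real.rpow_add hx0, Real.sqrt_eq_rpow, one_div, ← Real.rpow_neg hx0.le]
      congr 1
      ring
    rw [e1]
    refine mul_le_mul_of_nonneg_left ?_ (by positivity)
    exact Real.rpow_le_rpow hx0.le hxD hs.le
  refine (Finset.sum_le_sum h2).trans ?_
  rw [← Finset.sum_mul]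
  exact mul_le_mul_of_nonneg_right h1 (by positivity)

end Pool.Agent.Zk17.JQ
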